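import Pool.Agent.MP_ee8c61_ag.M3K.Spec

/-! Sections that do not generate; divisors through a valuation on two models. -/

namespace Pool.Agent.MP_ee8c61_ag.M3K

open H59 M3 M3E Finset

theorem rowNg0 : OfNg0 := by
  intro hE N f W hW
  have B := hE.bas N f W hW
  have Nb := hE.nb N f W hW
  have SH := hE.h N f W hW
  refine ⟨fun V c i g hV hi hg hG => ?_, fun c i g hg hv => ?_,
    fun V c g g' hV hg hg' h1 h2 h3 => ?_, fun V c i g hg hV hi hG => ?_,
    fun V c b s hs s' hs' hb hG => ?_, fun c V hc hV => ?_, fun c c' h g hg V hV => ?_,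
    fun c c' g hg g' hg' V hV => B.oc_mul _ _ _ _ _ (hg V hV) (hg' V hV),
    fun c n g hg V hV => B.oc_pow _ _ _ _ (hg V hV)⟩
  · obtain ⟨b, hb⟩ := hW.cov V hV
    have h1 := hg b hb
    have h2 := hG b hb
    have e : g * W.mon b c = g * W.mon b (c - W.e i) * W.η b i := by
      have := B.mon_e b i 1
      rw [one_smul, zpow_one] at this
      rw [mul_assoc, ← this, ← B.mon_add, sub_add_cancel]
    rw [e] at h2
    exact not_un_mul h1 (hb _ (B.η_mem b i)) ((B.thru_iff b V i hb).1 hi) h2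
  · refine (SH _ _).2 ⟨((SH _ _).1 hg).1, fun j => ?_⟩
    by_cases h : j = i
    · subst h
      simpa [W.e_apply, sub_eq_add_neg, add_comm] using hv
    · simpa [W.e_apply, h] using ((SH _ _).1 hg).2 j
  · obtain ⟨b, hb⟩ := hW.cov V hV
    rw [B.gen_iff b V c _ hb] at h1 h2 h3
    rw [sub_mul, sub_eq_add_neg] at h3
    exact not_un_add (hg b hb) (neg_mem (hg' b hb)) h1 (fun h => h2 (by simpa using h.neg)) h3
  · obtain ⟨b, hb⟩ := hW.cov V hV
    obtain ⟨h1, -, -, h2⟩ := B.in_v b V i hb hi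
    have h3 := h2 _ ((Nb.H c g).1 hg b) (hG b hb)
    have h0 : g ≠ 0 := left_ne_zero_of_mul (hG b hb).1
    rw [(W.v i).mul _ _ h0 (W.mon_ne b c), B.v_mon b i c h1] at h3
    omega
  · have e : s' / s = s' * W.mon b c * (s * W.mon b c)⁻¹ := by
      have := W.mon_ne b c
      have h0 : s ≠ 0 := left_ne_zero_of_mul (hG b hb).1
      field_simp
    rw [e]
    exact (Lc.of_mem ((Nb.H c s').1 hs' b)).mul
      ((Lc.of_mem ((Nb.H c s).1 hs b)).inv (hG b hb))
  · obtain ⟨T, h1, h2⟩ := hc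
    obtain ⟨g, hg, h3⟩ := h2 V hV
    exact ⟨g, h1 g hg, h3⟩
  · exact B.oc_mono V c c' g (fun j _ => h j) (hg V hV)

theorem rowTh : OfTh := by
  intro hE N f W M D hW hM V j hV
  have B := hE.bas N f W hW
  have B' := hE.bas N f M hM
  obtain ⟨a, ha⟩ := hM.cov V hV
  obtain ⟨b, hb⟩ := hW.cov V hV
  have h1 := D.mon a b V ha hb j
  rw [B'.thru_iff a V j ha]
  refine ⟨fun h => ?_, fun ⟨i, hi, h⟩ h2 => ?_⟩
  · by_contra! h2
    refine h ?_
    have h3 := B.un_of b V (fun i => (D.m i j : ℤ)) hb fun i hi => by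
      have := h2 i hi
      omega
    have := h1.mul h3
    rwa [div_mul_cancel₀ _ (W.mon_ne b _)] at this
  · have h3 : Un V (W.mon b fun i => (D.m i j : ℤ)) := by
      have := h2.div h1
      rwa [div_div_cancel₀ (M.η_ne a j)] at this
    have e : (W.mon b fun i => (D.m i j : ℤ)) =
        W.mon b ((fun i => (D.m i j : ℤ)) - W.e i) * W.η b i := by
      have := B.mon_e b i 1
      rw [one_smul, zpow_one] at this
      rw [← this, ← B.mon_add, sub_add_cancel]
    rw [e] at h3
    refine not_un_mul (hb _ (B.mon_mem b _ fun l => ?_)) (hb _ (B.η_mem b i))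
      ((B.thru_iff b V i hb).1 hi) h3
    by_cases hl : l = i
    · subst hl
      simp only [Pi.zero_apply, Pi.sub_apply, W.e_apply, if_true]
      omega
    · simp [W.e_apply, hl]

end Pool.Agent.MP_ee8c61_ag.M3K
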