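import Pool.Agent.MP_ee8c61_ag.M3.Defs
import Pool.Agent.MP_ee8c61_ag.M3E.Asm

/-!
Formal properties of chambers, local rings of the ample model, nodes: the statements.
-/

namespace Pool.Agent.MP_ee8c61_ag.M3K

open H59 M3 M3E Finset
open H59.Sys (ind)

noncomputable section

variable {N : ℕ} {f : Po N} {M : Mod N}

/-- The log discrepancy with respect to the chamber. -/
def dl (C : Ch f M) : C.W.J → ℚ := C.W.nu - C.P M.nu

/-- `c'` is the mobile part of `c`. -/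
structure Mob (C : Ch f M) (c : M.J → ℤ) (c' : C.W.J → ℤ) : Prop where
  eq : C.W.q c' = C.P (M.q c)
  free : C.W.Free c'
  H : ∀ n : ℕ, M.H (n • c) = C.W.H (n • c')

/-- An interior divisor of the chamber and its mobile part. -/
structure Pz (C : Ch f M) (c : M.J → ℤ) (L : C.W.J → ℤ) : Prop extends Mob C c L where
  inn : Inn C.U (M.q c)

/-- The residue of `τ` at `V` is transcendental. -/
def Tc (V : Vl N) (τ : KK N) : Prop := ∀ a : ℂ, Un V (τ - algebraMap ℂ (KK N) a)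

/-- `g` is a section of `c` along all refinements of `V₀`. -/
def Rg (W : Mod N) (V₀ : Vl N) (c : W.J → ℤ) (g : KK N) : Prop :=
  ∀ V, Ov V → V ≤ V₀ → W.Oc V c g

/-- `g` is regular at the refinements of `V₀` where `s` generates `L`. -/
def Bs (W : Mod N) (V₀ : Vl N) (L : W.J → ℤ) (s g : KK N) : Prop :=
  ∀ V, Ov V → V ≤ V₀ → W.Gen V L s → g ∈ V

/-- `V` is the localization of the ring of functions on the set where `s` generates. -/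
def Rv (W : Mod N) (V₀ V : Vl N) (L : W.J → ℤ) (s : KK N) : Prop :=
  ∀ g ∈ V, ∃ β, Bs W V₀ L s β ∧ Un V β ∧ Bs W V₀ L s (β * g)

/-- `V` is a refinement of `V₀` of corank one with parameter `y`. -/
structure Ck (V₀ V : Vl N) (y : KK N) : Prop where
  le : V ≤ V₀
  mem : y ∈ V
  non : ¬Un V y
  un : Un V₀ y
  ord : ∀ g, Un V₀ g → ∃ e : ℤ, Un V (g / y ^ e)

/-- The system of `L` is not constant at the centre of `V`. -/
def Nn (W : Mod N) (V : Vl N) (L : W.J → ℤ) : Prop :=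
  ∃ s ∈ W.H L, ∃ s' ∈ W.H L, W.Gen V L s ∧ Tc V (s' / s)

/-- A multiple of `L` is ample plus free plus effective off `o`. -/
def Big (W : Mod N) (o : W.J) (L : W.J → ℤ) : Prop :=
  ∃ (μ : ℕ) (F w Ξ : W.J → ℤ), W.Free F ∧ W.Amp w ∧ 0 ≤ Ξ ∧ Ξ o = 0 ∧ μ • L = F + w + Ξ

/-- The image of the centre of `V` passes through the image of the centre of `Γ`. -/
def Thr (W : Mod N) (L : W.J → ℤ) (V Γ : Vl N) : Prop :=
  ∀ n : ℕ, ∀ σ ∈ W.H (n • L), W.Gen Γ (n • L) σ → W.Gen V (n • L) σ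

/-- Along `V` the map `P` is the pull-back. -/
def Tame (C : Ch f M) (V : Vl N) : Prop := ∀ i, C.W.Thru V i → ∀ d, C.P d i = C.D.pb d i

/-- The vector `x` is positive along `V`. -/
def Pv (W : Mod N) (V : Vl N) (x : W.J → ℚ) : Prop := ∃ i, W.Thru V i ∧ 0 < x i

/-- The divisors `i`, `i'` are disjoint. -/
def Sep (W : Mod N) (i i' : W.J) : Prop := ∀ V, Ov V → W.Thru V i → ¬W.Thru V i'

/-! ### Change of the model -/

/-- The pull-back as a linear map. -/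
def pbL {W' W : Mod N} (D : Dom W' W) : (W.J → ℚ) →ₗ[ℚ] (W'.J → ℚ) where
  toFun := D.pb
  map_add' := D.pb_add
  map_smul' := D.pb_smul

structure RfOK (C : Ch f M) {W' : Mod N} (D' : Dom W' C.W) : Prop where
  ok : W'.OK f
  mon : ∀ a b V, M.In a V → W'.In b V → ∀ j,
    Un V (M.η a j / W'.mon b fun i => ((∑ l, D'.m i l * C.D.m l j : ℕ) : ℤ))
  loc : ∀ b V, W'.In b V → ∃ a, ∀ g ∈ M.S.A a, Lc (W'.S.A b) V g
  free : ∀ d ∈ C.U, ∃ (m : ℕ) (c : M.J → ℤ) (c' : W'.J → ℤ), 0 < m ∧ M.q c = m • d ∧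
    W'.q c' = m • D'.pb (C.P d) ∧ W'.Free c' ∧ ∀ n : ℕ, M.H (n • c) = W'.H (n • c')

/-- The same chamber on a higher model. -/
def refine (C : Ch f M) {W' : Mod N} (D' : Dom W' C.W) (h : RfOK C D') : Ch f M where
  W := W'
  D := { e := fun j => D'.e (C.D.e j)
         m := fun i j => ∑ l, D'.m i l * C.D.m l j
         v := fun j => (D'.v _).trans (C.D.v j)
         mon := h.mon
         loc := h.loc }
  U := C.U
  P := pbL D' ∘ₗ C.P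
  h := C.h
  t := C.t
  ok := h.ok
  add := C.add
  smul := C.smul
  free := h.free
  amp := C.amp
  t0 := C.t0
  mem := C.mem
  inn := C.inn

/-! ### Formal consequences -/

/-- A property of all chambers. -/
def AllC (P : ∀ {N : ℕ} {f : Po N} {M : Mod N} (_ : Ch f M), Prop) : Prop :=
  ∀ (N : ℕ) (f : Po N) (M : Mod N) (C : Ch f M), M.OK f → P C

structure Ka (C : Ch f M) : Prop where
  mob : ∀ d ∈ C.U, ∃ (m : ℕ) (c : M.J → ℤ) (c' : C.W.J → ℤ), 0 < m ∧ M.q c = m • d ∧ Mob C c c'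
  mob_nsmul : ∀ c c' (n : ℕ), Mob C c c' → Mob C (n • c) (n • c')
  pz : ∃ c L, Pz C c L
  pz_nsmul : ∀ c L (n : ℕ), 0 < n → Pz C c L → Pz C (n • c) (n • L)
  far : ∀ d, Inn C.U d → ∀ x, ∃ r₀ : ℕ, ∀ r ≥ r₀, Inn C.U (r • d + x) ∧ r • d + x ∈ C.U
  semi : ∀ d ∈ C.U, C.W.SemiQ (C.P d)
  amp : ∀ c L, Pz C c L → ∀ x, ∃ r₀ : ℕ, ∀ r ≥ r₀, ∀ A, C.W.AmpQ A →
    C.W.AmpQ (r • C.W.q L + C.P x + A)
  exc : ∀ c, ∀ g ∈ M.H c, g ≠ 0 → ∀ i, -C.P (M.q c) i ≤ (C.W.v i).v g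
  excH : ∀ Λ Λ', (∀ i, C.P (M.q (C.D.pf Λ)) i < Λ' i + 1) → C.W.H Λ ⊆ C.W.H Λ'
  le : ∀ d ∈ C.U, C.P d ≤ C.D.pb d
  ge : ∀ A, M.SemiQ A → C.D.pb A ≤ C.P A
  aa : C.P (M.q M.aa) = C.W.q C.W.aa
  mono : ∀ d, 0 ≤ d → 0 ≤ C.P d
  xi : ∀ A, C.W.SemiQ A → A ≤ C.P (C.D.pf A)
  one : ∀ d i, Inn C.U d → C.P d i = C.D.pb d i → ∀ d', C.P d' i = C.D.pb d' i
  dead : ∀ j, ¬C.Alive j → C.P (M.q (M.e j)) = 0
  congr : ∀ d d', (∀ j, C.Alive j → d j = d' j) → C.P d = C.P d'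
  big : ∀ c L o, Pz C c L → C.Alive o → Big C.W (C.D.e o) L

structure Kb (C : Ch f M) : Prop where
  lc : C.D.pb M.nu ≤ C.W.nu
  dl0 : 0 ≤ dl C
  tame : ∀ i, dl C i = 0 → C.D.pb M.nu i = C.W.nu i ∧ ∀ d, C.P d i = C.D.pb d i
  alive : ∀ j, C.Alive j ↔ dl C (C.D.e j) = 0
  plt : ∀ o i, i ≠ C.D.e o → C.D.pb (M.q (M.kk + M.e o)) i < C.W.nu i
  pltP : ∀ o i, i ≠ C.D.e o → dl C i = 0 →
    ∃ j, j ≠ o ∧ C.Alive j ∧ 0 < C.D.m i j ∧ 0 < C.P (M.q (M.e j)) i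
  gen : ∀ V, Ov V → Tame C V → ∀ c c' g, C.W.q c' = C.P (M.q c) →
    ((C.W.Gen V c' g ↔ M.Gen V c g) ∧ (C.W.Oc V c' g ↔ M.Oc V c g))

/-- Divisors through a valuation on two models. -/
def STh : Prop := AllD fun {_ W M} D => ∀ V j, Ov V → (M.Thru V j ↔ ∃ i, W.Thru V i ∧ 0 < D.m i j)

def OfTh : Prop := EOut → STh

/-- Sections that vanish on a divisor through `V` do not generate at `V`. -/
structure Ng (W : Mod N) : Prop where
  sub : ∀ V c i g, Ov V → W.Thru V i → W.Oc V (c - W.e i) g → ¬W.Gen V c g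
  van : ∀ c i, ∀ g ∈ W.H c, g ∈ (W.v i).F (1 - c i) → g ∈ W.H (c - W.e i)
  dif : ∀ V c g g', Ov V → W.Oc V c g → W.Oc V c g' → ¬W.Gen V c g → ¬W.Gen V c g' →
    ¬W.Gen V c (g - g')
  val : ∀ V c i, ∀ g ∈ W.H c, Ov V → W.Thru V i → W.Gen V c g → (W.v i).v g = -c i
  lc : ∀ V c b, ∀ s ∈ W.H c, ∀ s' ∈ W.H c, W.In b V → W.Gen V c s → Lc (W.S.A b) V (s' / s)
  ex : ∀ c V, W.Free c → Ov V → ∃ g ∈ W.H c, W.Gen V c g
  mono : ∀ c c', c ≤ c' → W.H c ⊆ W.H c'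
  mul : ∀ c c', ∀ g ∈ W.H c, ∀ g' ∈ W.H c', g * g' ∈ W.H (c + c')
  pow : ∀ c (n : ℕ), ∀ g ∈ W.H c, g ^ n ∈ W.H (n • c)

def SNg0 : Prop := AllM fun _ W => Ng W
def OfNg0 : Prop := EOut → SNg0

def SKa : Prop := AllC fun C => Ka C
def OfKa : Prop := EOut → SNg0 → SKa
def SKb : Prop := AllC fun C => Kb C
def OfKb : Prop := EOut → SKa → SKb

/-- Exceptional divisors occur in the relative ample class. -/
def SXi : Prop := AllD fun {_ W _} D => ∀ A, W.AmpQ A → ∀ i, i ∉ Set.range D.e →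
  A i < D.pb (D.pf A) i

def OfXi : Prop := EOut → SXi

structure Rf (C : Ch f M) {W' : Mod N} (D' : Dom W' C.W) (h : RfOK C D') : Prop where
  pb : ∀ d : M.J → ℚ, (refine C D' h).D.pb d = D'.pb (C.D.pb d)
  alive : ∀ j, (refine C D' h).Alive j ↔ C.Alive j
  mob : ∀ c c', Mob C c c' → Mob (refine C D' h) c (D'.pb c')
  pz : ∀ c L, Pz C c L → Pz (refine C D' h) c (D'.pb L)
  tame : ∀ V, Ov V → (Tame (refine C D' h) V ↔ Tame C V)
  pv : ∀ V x, Ov V → 0 ≤ x → (Pv W' V (D'.pb x) ↔ Pv C.W V x)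
  thr : ∀ L V Γ, Ov V → Ov Γ → (Thr W' (D'.pb L) V Γ ↔ Thr C.W L V Γ)
  nn : ∀ L V, Ov V → (Nn W' V (D'.pb L) ↔ Nn C.W V L)

def SRf : Prop := AllC fun {N f _} C => ∀ (W' : Mod N) (D' : Dom W' C.W), W'.OK f →
  ∃ h : RfOK C D', Rf C D' h

def OfRf : Prop := EOut → STh → SKa → SRf

/-- Two divisors can be separated. -/
def SSep : Prop := AllM fun {N} f W => ∀ i i', i ≠ i' →
  ∃ (W' : Mod N) (D' : Dom W' W), W'.OK f ∧ Sep W' (D'.e i) (D'.e i')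

def OfSep : Prop := EOut → SSep

/-- A unit of a refinement of a divisor becomes regular on a higher model. -/
def SReal : Prop := AllM fun {N} f W => ∀ o V τ, Ov V → V ≤ (W.v o).O → Un V τ →
  ∃ (W' : Mod N) (_ : Dom W' W), W'.OK f ∧ ∀ b, W'.In b V → Lc (W'.S.A b) V τ

def OfReal : Prop := EOut → SReal

/-! ### Commutative algebra -/

/-- An element that satisfies an equation with a unit coefficient. -/
def SUl : Prop := ∀ (K : Type) [Field K] (V₀ V : ValuationSubring K)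
  (F : Set (ValuationSubring K)) (p : Polynomial K) (u : K) (k : ℕ), V ≤ V₀ → V ∈ F →
  (∀ V' ∈ F, V' ≤ V₀) → u ∈ V → (∀ j, ∀ V' ∈ F, p.coeff j ∈ V') → Un V (p.coeff k) →
  ¬Un V₀ (p.eval u) → ∃ β, (∀ V' ∈ F, β ∈ V') ∧ Un V β ∧ ∀ V' ∈ F, β * u ∈ V'

/-- Three residues are algebraically dependent. -/
def STr : Prop := ∀ (d : DV (KK 3)) (π τ y u : KK 3), d.v π = 1 → τ ∈ d.O → u ∈ d.O →
  Un d.O y → ∃ (Φ : Polynomial (Polynomial ℂ)) (Ψ : Polynomial (KK 3)), Φ ≠ 0 ∧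
    (∀ j, Ψ.coeff j ∈ Algebra.adjoin ℂ {τ, y}) ∧
    (Φ.map (Polynomial.aeval τ).toRingHom + Polynomial.C y * Ψ).eval u ∈ d.F 1

/-- Four elements are algebraically dependent. -/
def STr4 : Prop := ∀ (τ : Fin 2 → KK 3) (y u : KK 3), y ≠ 0 →
  ∃ (Φ : Polynomial (MvPolynomial (Fin 2) ℂ)) (Ψ : Polynomial (KK 3)), Φ ≠ 0 ∧
    (∀ j, Ψ.coeff j ∈ Algebra.adjoin ℂ {τ 0, τ 1, y}) ∧
    (Φ.map (MvPolynomial.aeval τ).toRingHom + Polynomial.C y * Ψ).eval u = 0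

/-- Polynomials in an element with transcendental residue are units. -/
def STc : Prop := ∀ (N : ℕ) (V : Vl N) (τ : KK N), Ov V → Tc V τ →
  ∀ p : Polynomial ℂ, p ≠ 0 → Un V (Polynomial.aeval τ p)

/-! ### Sections with poles along the base locus of one section -/

def SLo : Prop := AllM fun _ W => ∀ V₀ L c s g, Rg W V₀ L s → W.Gen V₀ L s →
  (∀ V, Ov V → V ≤ V₀ → W.Gen V L s → W.Oc V c g) →
  ∃ e₀ : ℕ, ∀ e ≥ e₀, Rg W V₀ (e • L + c) (s ^ e * g)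

def OfLo : Prop := EOut → SLo

def SNg : Prop := AllM fun _ W => ∀ V₀ V y L s, Ov V → Ck V₀ V y → Rg W V₀ L s → W.Gen V L s →
  Rv W V₀ V L s → ∀ c, ∃ e₀ : ℕ, ∀ e ≥ e₀, ∃ σ, Rg W V₀ (e • L + c) σ ∧ W.Gen V (e • L + c) σ

def OfNg : Prop := EOut → SLo → SNg

/-- The functions on the set where `s` generates have the full field of fractions. -/
def SBir : Prop := AllM fun _ W => ∀ o L s, Big W o L → s ∈ W.H L → W.Gen (W.v o).O L s →
  ∀ g ∈ (W.v o).O, ∃ β, Bs W ⊤ L s β ∧ Un (W.v o).O β ∧ Bs W ⊤ L s (β * g)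

def OfBir : Prop := EOut → SBir

/-- The local ring of the image of the divisor at a curve that is not contracted. -/
def SRv : Prop := ∀ (f : Po 3) (W : Mod 3), W.OK f → ∀ o V y L s τ, Ov V → Ck (W.v o).O V y →
  Big W o L → s ∈ W.H L → W.Gen V L s → Bs W (W.v o).O L s τ → Tc V τ → Rv W (W.v o).O V L s

def OfRv : Prop := EOut → SUl → STr → STc → SBir → SRv

/-- Every divisor is generated at a curve that is not contracted, after a twist. -/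
def SNn : Prop := ∀ (f : Po 3) (W : Mod 3), W.OK f → ∀ o k V L, W.IsCv o k V → Big W o L →
  Nn W V L → ∀ c, ∃ e₀ : ℕ, ∀ e ≥ e₀, ∃ σ ∈ W.R o (e • L + c), W.Gen V (e • L + c) σ

def OfNn : Prop := EOut → SNg → SRv → SNn

/-- On a dead divisor two ratios of sections are dependent. -/
def SWall : Prop := ∀ (f : Po 3) (M : Mod 3) (C : Ch f M), M.OK f → ∀ o, C.Alive o → C.Dead o →
  ∀ (m : ℕ) c c', M.q c = m • (M.nu + C.t • C.h) → 0 < m → Mob C c c' → ∀ s ∈ M.H c,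
  M.Gen (M.v o).O c s → ∀ τ : Fin 2 → KK 3, Bs C.W ⊤ c' s (τ 0) → Bs C.W ⊤ c' s (τ 1) →
  ∃ Φ : MvPolynomial (Fin 2) ℂ, Φ ≠ 0 ∧ MvPolynomial.aeval τ Φ ∈ (M.v o).F 1

def OfWall : Prop := EOut → SKa → SUl → STr4 → SNg → SWall

/-! ### Curves and points -/

/-- At a triple point all residues are constants. -/
def SR0 : Prop := ∀ (f : Po 3) (M : Mod 3), M.OK f → ∀ V a i j k, i ≠ j → i ≠ k → j ≠ k →
  M.In a V → M.Thru V i → M.Thru V j → M.Thru V k → ∀ g, Lc (M.S.A a) V g →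
  ∃ κ : ℂ, ¬Un V (g - algebraMap ℂ (KK 3) κ)

def OfR0 : Prop := EOut → SR0

/-- A centre on two divisors that is not a closed point is a double curve. -/
def SUp : Prop := ∀ (f : Po 3) (M : Mod 3), M.OK f → ∀ o j V a τ, j ≠ o → M.In a V →
  V ≤ (M.v o).O → M.Thru V j → Lc (M.S.A a) V τ → Tc V τ → M.IsCv o j V

def OfUp : Prop := EOut → STr → STc → SUp

/-- A function with transcendental residue is a coordinate along a double curve. -/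
def SDt : Prop := ∀ (f : Po 3) (M : Mod 3), M.OK f → ∀ o j V a τ (l : Fin 3), M.IsCv o j V →
  M.In a V → M.S.lab a o ≠ some l → M.S.lab a j ≠ some l → Lc (M.S.A a) V τ →
  (∀ g, Lc (M.S.A a) V g → ¬Un V g → ¬Un V (M.S.D a l g)) ∧ (Tc V τ ↔ Un V (M.S.D a l τ))

def OfDt : Prop := EOut → STr → STc → SDt

/-- A curve of log discrepancy zero that is not contracted is a double curve of `M`. -/
def SCore : Prop := ∀ (f : Po 3) (M : Mod 3) (C : Ch f M), M.OK f → ∀ o i V c L, C.Alive o →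
  Mob C c L → C.W.IsCv (C.D.e o) i V → dl C i = 0 → Nn C.W V L →
  ∃ j, C.Alive j ∧ M.IsCv o j V ∧ ∀ j', j' ≠ o → C.D.m i j' = if j' = j then 1 else 0

def OfCore : Prop := EOut → SNg0 → STh → SKa → SKb → SUp → SCore

/-- A curve over a triple point on which a monomial is not constant has log discrepancy zero. -/
def SMo : Prop := ∀ (f : Po 3) (W M : Mod 3) (D : Dom W M), W.OK f → M.OK f →
  ∀ o j k i V a (x : M.J → ℤ) φ, o ≠ j → o ≠ k → j ≠ k → W.IsCv (D.e o) i V → M.In a V →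
  M.Thru V j → M.Thru V k → (∀ g, Lc (M.S.A a) V g → ∃ κ : ℂ, ¬Un V (g - algebraMap ℂ (KK 3) κ)) →
  Lc (M.S.A a) V (φ * M.mon a x) → Un V (φ * M.mon a x) → Tc V φ → D.pb M.nu i = W.nu i

def OfMo : Prop := EOut → STh → SDt → SMo

/-! ### Nodes -/

/-- Connectedness: a section is cut off along a second set of divisors. -/
def SCn : Prop := AllM fun _ W => ∀ (A : W.J → ℚ) (c : W.J → ℤ) (S₁ S₂ : Finset W.J) σ,
  W.AmpQ A → W.Free c → Disjoint S₁ S₂ → c ≤ W.kk + W.up A + ind S₁ + ind S₂ → σ ∈ W.H c →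
  (∀ i ∈ S₁, ∀ j ∈ S₂, ∀ V, W.IsCv i j V → ¬W.Gen V c σ) →
  ∃ r : ℕ, ∃ g ∈ W.H (W.kk + W.up A + r • c + ind S₁), ∀ i ∈ S₁,
    g - σ ^ (r + 1) ∈ (W.v i).F (1 - (W.kk + W.up A + r • c + ind S₁) i)

def OfCn : Prop := EOut → SCn

/-- One section that generates at `Γ` and at no member of a finite family. -/
def SAv : Prop := AllM fun _ W => ∀ L Γ (F : Set (Vl _)), W.Free L → Ov Γ → F.Finite →
  (∀ V ∈ F, Ov V ∧ ¬Thr W L V Γ) → ∀ n₀ : ℕ, ∃ n ≥ n₀, ∃ σ ∈ W.H (n • L),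
    W.Gen Γ (n • L) σ ∧ ∀ V ∈ F, ¬W.Gen V (n • L) σ

def OfAv : Prop := EOut → SNg0 → SAv

/-- The coefficients `nu - P (k + ∑ e j)`. -/
def del (C : Ch f M) (I : Finset M.J) : C.W.J → ℚ := C.W.nu - C.P (M.q (M.kk + ind I))

def SNa : Prop := AllC fun {_ _ M} C => ∀ o j c L Γ, o ≠ j → C.Alive o → C.Alive j → Pz C c L →
  Ov Γ → Γ ≤ (M.v o).O → Pv C.W Γ (C.P (M.q (M.e j))) →
  ∃ k V, C.W.IsCv (C.D.e o) k V ∧ del C {o, j} k = 0 ∧ Thr C.W L V Γ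

def OfNa : Prop := EOut → SNg0 → SKa → SKb → SCn → SAv → SNa

def SNc : Prop := AllC fun {_ _ M} C => ∀ o j j' c L Γ k V, o ≠ j → o ≠ j' → j ≠ j' →
  C.Alive o → C.Alive j → C.Alive j' → Pz C c L → Ov Γ → Pv C.W Γ (C.P (M.q (M.e j'))) →
  k ∉ Set.range C.D.e → del C {o, j} k = 0 → Ov V → C.W.Thru V k → Thr C.W L V Γ →
  ∃ V', Ov V' ∧ Tame C V' ∧ M.Thru V' o ∧ M.Thru V' j ∧ M.Thru V' j' ∧ Thr C.W L V' Γ

def OfNc : Prop := EOut → SNg0 → STh → SKa → SKb → SXi → SCn → SAv → SNc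

/-- Near a tame closed point the ample model is `M`. -/
def SIso : Prop := AllC fun {N _ M} C => ∀ c L V Γ, Pz C c L → Ov V → Ov Γ → Tame C V →
  (∀ a, M.In a V → ∀ g, Lc (M.S.A a) V g → ∃ κ : ℂ, ¬Un V (g - algebraMap ℂ (KK N) κ)) →
  Thr C.W L V Γ → Tame C Γ ∧ ∀ a, M.In a V → M.In a Γ ∧ ∀ g ∈ M.S.A a, (Un V g ↔ Un Γ g)

def OfIso : Prop := EOut → SNg0 → SKa → SKb → SIso

/-- A point of the image of `o` on two other alive divisors is a node of `M`. -/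
def SNode : Prop := ∀ (f : Po 3) (M : Mod 3) (C : Ch f M), M.OK f → ∀ o j j' Γ, o ≠ j → o ≠ j' →
  j ≠ j' → C.Alive o → C.Alive j → C.Alive j' → Ov Γ → Γ ≤ (M.v o).O →
  Pv C.W Γ (C.P (M.q (M.e j))) → Pv C.W Γ (C.P (M.q (M.e j'))) →
  Tame C Γ ∧ M.Thru Γ j ∧ M.Thru Γ j' ∧
    ∀ a, M.In a Γ → ∀ g, Lc (M.S.A a) Γ g → ∃ κ : ℂ, ¬Un Γ (g - algebraMap ℂ (KK 3) κ)

def OfNode : Prop := EOut → SKa → SKb → SRf → SSep → SR0 → SNa → SNc → SIso → SNode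

/-- A curve on two other alive divisors with a nonconstant ratio of sections. -/
def SHor : Prop := ∀ (f : Po 3) (M : Mod 3) (C : Ch f M), M.OK f → ∀ o j j' i Γ, o ≠ j →
  o ≠ j' → j ≠ j' → C.Alive o → C.Alive j → C.Alive j' → C.W.IsCv (C.D.e o) i Γ →
  0 < C.P (M.q (M.e j)) i → 0 < C.P (M.q (M.e j')) i → ∀ c₁ c₁' c₂ c₂' s₁ s₂ (n : ℤ),
  Mob C c₁ c₁' → Mob C c₂ c₂' → s₁ ∈ M.H c₁ → s₂ ∈ M.H c₂ → C.W.Gen Γ c₁' s₁ →
  C.W.Gen Γ c₂' s₂ → Tc Γ (s₁ / s₂ * ip 3 f ^ n) → dl C i = 0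

def OfHor : Prop := EOut → SNg0 → SKa → SKb → SMo → SNode → SHor

/-- A contracted curve with a nonconstant ratio of sections has log discrepancy zero. -/
def SNull : Prop := ∀ (f : Po 3) (M : Mod 3) (C : Ch f M), M.OK f → ∀ o i Γ c L, C.Alive o →
  Pz C c L → C.W.IsCv (C.D.e o) i Γ → (∀ n : ℕ, ¬Nn C.W Γ (n • L)) →
  ∀ c₁ c₁' c₂ c₂' s₁ s₂ (n : ℤ),
  Mob C c₁ c₁' → Mob C c₂ c₂' → s₁ ∈ M.H c₁ → s₂ ∈ M.H c₂ → C.W.Gen Γ c₁' s₁ →
  C.W.Gen Γ c₂' s₂ → Tc Γ (s₁ / s₂ * ip 3 f ^ n) → dl C i = 0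

def OfNull : Prop := EOut → SNg0 → SKa → STc → SHor → SNull

/-- Curves that lie on no other divisor are not contracted. -/
def SNbr : Prop := AllM fun _ W => ∀ o L Γ b τ, Big W o L → W.In b Γ →
  (∀ i, W.Thru Γ i → i = o) → Lc (W.S.A b) Γ τ → Tc Γ τ → ∃ n : ℕ, Nn W Γ (n • L)

def OfNbr : Prop := EOut → SNg0 → SNbr

end

end Pool.Agent.MP_ee8c61_ag.M3K
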