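import Pool.Agent.MP_ee8c61_ag.M3K.Spec

/-! Formal properties of a chamber, second part. -/

namespace Pool.Agent.MP_ee8c61_ag.M3K

open H59 M3 M3E Finset

theorem rowKb : OfKb := by
  intro hE hK N f M C hM
  have BW := hE.bas N f C.W C.ok
  have K := hK N f M C hM
  have Dc := hE.dc N f C.W M C.D C.ok hM
  have Aq := hE.aq N f M hM
  have Jd := (hE.jd N f C.W M C.D C.ok hM).2
  have Plt := hE.plt N f C.W M C.D C.ok hM
  have nue : ∀ j, C.W.nu (C.D.e j) = M.nu j := fun j => by simp only [Mod.nu, Jd]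
  have pl : ∀ o i (ε : ℚ), 0 < ε → i ≠ C.D.e o →
      C.D.pb (M.q (M.kk + M.e o)) i + (1 - ε) * C.D.pb (M.dd o) i < C.W.nu i := by
    intro o i ε hε hi
    have h := (Plt o ((1 - ε) • M.dd o) (by simp [Mod.dd]) fun j => by
      simp only [Mod.dd, Pi.smul_apply, smul_eq_mul]
      split_ifs <;> linarith).2.2 i
    rw [Dom.bd, C.D.pb_add, C.D.pb_smul] at h
    simp only [Pi.sub_apply, Pi.add_apply, Pi.smul_apply, smul_eq_mul, Mod.q_apply, Mod.e_apply,
      if_neg hi, Mod.kk] at h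
    simp only [Mod.nu]
    push_cast at h
    linarith
  have nu : ∀ o, M.nu = M.q (M.kk + M.e o) + M.dd o := fun o => funext fun j => by
    simp only [Mod.nu, Mod.dd, Mod.kk, Pi.add_apply, Mod.q_apply, Mod.e_apply]
    split_ifs <;> simp
  have plt : ∀ o i, i ≠ C.D.e o → C.D.pb (M.q (M.kk + M.e o)) i < C.W.nu i := fun o i hi => by
    simpa using pl o i 1 one_pos hi
  have lc : C.D.pb M.nu ≤ C.W.nu := fun i => by
    rcases isEmpty_or_nonempty M.J with h | ⟨⟨o⟩⟩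
    · simp only [Dom.pb, univ_eq_empty, sum_empty, Mod.nu]
      positivity
    by_cases hi : i = C.D.e o
    · rw [hi, Dc.pb_e, nue]
    rw [nu o, C.D.pb_add]
    refine le_of_forall_pos_le_add fun δ hδ => ?_
    have h0 : 0 ≤ C.D.pb (M.dd o) i := by
      have := C.D.pb_mono (show (0 : M.J → ℚ) ≤ M.dd o from fun j => by
        simp only [Mod.dd, Pi.zero_apply]
        split_ifs <;> norm_num) i
      rwa [C.D.pb_zero] at this
    have h1 := pl o i (δ / (C.D.pb (M.dd o) i + 1)) (by positivity) hi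
    have h2 : δ / (C.D.pb (M.dd o) i + 1) * C.D.pb (M.dd o) i ≤ δ := by
      rw [div_mul_eq_mul_div, div_le_iff₀ (by positivity)]
      nlinarith
    simp only [Pi.add_apply]
    linarith
  obtain ⟨s, hs, hi⟩ := C.inn
  have s0 : 0 < s := C.t0.trans_lt hs
  have hm : M.nu + s • C.h ∈ C.U := by
    obtain ⟨δ, -, h⟩ := hi 0
    simpa using h
  have key : ∀ i, C.P (M.nu + s • C.h) i = C.P M.nu i + s * C.P C.h i ∧
      C.D.pb (M.nu + s • C.h) i = C.D.pb M.nu i + s * C.D.pb C.h i ∧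
      C.P (M.nu + s • C.h) i ≤ C.D.pb (M.nu + s • C.h) i ∧
      s * C.D.pb C.h i ≤ s * C.P C.h i ∧ C.D.pb M.nu i ≤ C.W.nu i := fun i =>
    ⟨by rw [map_add, map_smul]; rfl, by rw [C.D.pb_add, C.D.pb_smul]; rfl, K.le _ hm i,
      mul_le_mul_of_nonneg_left (K.ge _ (Aq.semi _ C.amp) i) s0.le, lc i⟩
  have tame : ∀ i, dl C i = 0 → C.D.pb M.nu i = C.W.nu i ∧ ∀ d, C.P d i = C.D.pb d i := by
    intro i h
    obtain ⟨h1, h2, h3, h4, h5⟩ := key i
    simp only [dl, Pi.sub_apply] at h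
    exact ⟨by linarith, K.one _ i hi (by linarith)⟩
  refine ⟨lc, fun i => ?_, tame, fun j => ⟨fun h => ?_, fun h d => ?_⟩, plt, fun o i hi h => ?_,
    fun V hV hT c c' g e => ?_⟩
  · obtain ⟨h1, h2, h3, h4, h5⟩ := key i
    simp only [dl, Pi.sub_apply, Pi.zero_apply]
    linarith
  · simp only [dl, Pi.sub_apply]
    rw [h, nue, sub_self]
  · rw [(tame _ h).2, Dc.pb_e]
  · obtain ⟨h1, h2⟩ := tame i h
    have h3 := plt o i hi
    rw [nu o, C.D.pb_add, Pi.add_apply] at h1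
    have h4 : C.D.pb (M.dd o) i ≠ 0 := fun e => by linarith
    obtain ⟨j, -, hj⟩ := exists_ne_zero_of_sum_ne_zero h4
    have h5 : j ≠ o := fun e => hj (by simp [Mod.dd, e])
    have h6 : 0 < C.D.m i j := Nat.pos_of_ne_zero fun e => hj (by simp [e])
    have h7 : 0 < C.P (M.q (M.e j)) i := by
      rw [h2, ← C.D.q_pb, Mod.q_apply, C.D.pb_e]
      exact_mod_cast h6
    refine ⟨j, h5, by_contra fun h8 => ?_, h6, h7⟩
    rw [K.dead j h8] at h7
    exact lt_irrefl _ h7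
  · have h : ∀ i, C.W.Thru V i → c' i = C.D.pb c i := fun i hi => by
      have h1 := congrFun e i
      rw [hT i hi, ← C.D.q_pb] at h1
      exact Int.cast_injective (α := ℚ) h1
    rw [Dc.gen V c g hV, Dc.oc V c g hV]
    exact ⟨⟨BW.gen_congr V _ _ g h, BW.gen_congr V _ _ g fun i hi => (h i hi).symm⟩,
      ⟨BW.oc_mono V _ _ g fun i hi => (h i hi).le, BW.oc_mono V _ _ g fun i hi => (h i hi).ge⟩⟩

end Pool.Agent.MP_ee8c61_ag.M3K
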