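import Pool.Agent.MP_ee8c61_ag.M3K.Spec

/-!
Row Tr: three residues along a divisor of a threefold are algebraically dependent.
-/

namespace Pool.Agent.MP_ee8c61_ag.M3K

open M3 Polynomial

namespace RTr

theorem trd_poly (R : Type) [CommRing R] [IsDomain R] [Algebra ℂ R] [FaithfulSMul ℂ R] :
    Algebra.trdeg ℂ R[X] = Algebra.trdeg ℂ R + 1 := by
  rw [← trdeg_add_eq ℂ R (A := R[X]), Polynomial.trdeg_of_isDomain]

theorem trd_K : Algebra.trdeg ℂ (KK 3) = 3 := by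
  have : Algebra.IsAlgebraic (Po 3) (KK 3) := IsLocalization.isAlgebraic _ (nonZeroDivisors _)
  rw [← trdeg_add_eq ℂ (Po 3) (A := KK 3), trdeg_eq_zero (R := Po 3), add_zero,
    MvPolynomial.trdeg_of_isDomain]
  simp

theorem ex {R : Type} [CommRing R] [IsDomain R] [Algebra ℂ R] [FaithfulSMul ℂ R]
    (hR : Algebra.trdeg ℂ R = 1 + 1) (e : R[X][X] →ₐ[ℂ] KK 3) : ∃ G, G ≠ 0 ∧ e G = 0 := by
  by_contra hn
  have h1 : Function.Injective e := (injective_iff_map_eq_zero e).2 fun G hG =>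
    by_contra fun h0 => hn ⟨G, h0, hG⟩
  have h2 := trdeg_le_of_injective e h1
  rw [trd_K, trd_poly, trd_poly, hR] at h2
  norm_num at h2

variable {K R : Type} [Field K] [Algebra ℂ K] [CommRing R] [Algebra ℂ R]

theorem trail (f : R →ₐ[ℂ] K) (x : K) {G : R[X]} (hG : G ≠ 0) : ∃ (n : ℕ) (a : R) (H : R[X]),
    a ≠ 0 ∧ aevalTower f x G = x ^ n * (f a + x * aevalTower f x H) := by
  obtain ⟨q, h1, h2⟩ := exists_eq_pow_rootMultiplicity_mul_and_not_dvd G hG 0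
  rw [C_0, sub_zero, X_dvd_iff] at h2
  rw [C_0, sub_zero] at h1
  refine ⟨G.rootMultiplicity 0, q.coeff 0, q.divX, h2, ?_⟩
  conv_lhs => rw [h1, ← X_mul_divX_add q]
  rw [map_mul, map_pow, map_add, map_mul, aevalTower_X, aevalTower_C, add_comm]

theorem mem (A : Subalgebra ℂ K) (f : R →ₐ[ℂ] K) {x : K} (hf : ∀ a, f a ∈ A) (hx : x ∈ A)
    (p : R[X]) : aevalTower f x p ∈ A := by
  induction p using Polynomial.induction_on' with
  | add p q hp hq => rw [map_add]; exact add_mem hp hq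
  | monomial n a =>
    rw [← C_mul_X_pow_eq_monomial, map_mul, map_pow, aevalTower_C, aevalTower_X]
    exact mul_mem (hf a) (pow_mem hx n)

theorem swap (A : Subalgebra ℂ K) (f : R →ₐ[ℂ] K) {y : K} (u : K) (hf : ∀ a, f a ∈ A)
    (hy : y ∈ A) (H : R[X][X]) : ∃ Ψ : K[X], (∀ j, Ψ.coeff j ∈ A) ∧
      Ψ.eval u = aevalTower (aevalTower f u) y H := by
  induction H using Polynomial.induction_on' with
  | add p q hp hq =>
    obtain ⟨Ψ, a, b⟩ := hp
    obtain ⟨Ψ', a', b'⟩ := hq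
    exact ⟨Ψ + Ψ', fun j => by rw [coeff_add]; exact add_mem (a j) (a' j),
      by rw [eval_add, map_add, b, b']⟩
  | monomial n a =>
    refine ⟨a.map f.toRingHom * C (y ^ n), fun j => ?_, ?_⟩
    · rw [coeff_mul_C, coeff_map]
      exact mul_mem (hf _) (pow_mem hy n)
    · rw [← C_mul_X_pow_eq_monomial, map_mul, map_pow (aevalTower _ y), aevalTower_C, aevalTower_X,
        eval_mul, eval_C, eval_map]
      rfl

theorem main {R : Type} [CommRing R] [IsDomain R] [Algebra ℂ R] [FaithfulSMul ℂ R]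
    (hR : Algebra.trdeg ℂ R = 1 + 1) (d : DV (KK 3)) (f : R →ₐ[ℂ] KK 3) {π y : KK 3}
    (hπ : d.v π = 1) (hf : ∀ a, f a ∈ d.O) (hy : Un d.O y) :
    ∃ (Φ : R) (H : R[X]), Φ ≠ 0 ∧ f Φ + y * aevalTower f y H ∈ d.F 1 := by
  have hπ0 : π ≠ 0 := fun e => by rw [e, d.zero] at hπ; omega
  obtain ⟨G, hG, h0⟩ := ex hR (aevalTower (aevalTower f y) π)
  obtain ⟨n, G₀, H, hG₀, e⟩ := trail (aevalTower f y) π hG
  obtain ⟨m, Φ, H', hΦ, e'⟩ := trail f y hG₀
  refine ⟨Φ, H', hΦ, ?_⟩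
  have h3 : aevalTower (aevalTower f y) π H ∈ d.F 0 :=
    mem (VA d.O d.cst_mem) _ (mem (VA d.O d.cst_mem) _ hf hy.2.1)
      (d.F_anti (by omega) (d.mem_F_self π)) H
  have h4 := d.F_mul (d.F_mul (d.mem_F_self π) h3) (hy.pow m).2.2
  rw [hπ] at h4
  rw [h0, eq_comm, mul_eq_zero, or_iff_right (pow_ne_zero n hπ0), add_eq_zero_iff_eq_neg] at e
  have h5 : f Φ + y * aevalTower f y H' = -(π * aevalTower (aevalTower f y) π H * (y ^ m)⁻¹) := by
    rw [← neg_mul, ← e, e', mul_comm (y ^ m), mul_inv_cancel_right₀ (pow_ne_zero m hy.1)]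
  rw [h5]
  exact neg_mem h4

end RTr

theorem rowTr : STr := by
  intro d π τ y u hπ hτ hu hy
  have hA : ∀ (B : Subalgebra ℂ (KK 3)), τ ∈ B → ∀ a : ℂ[X], aeval τ a ∈ B := fun B hB a =>
    aevalTower_ofId (S := ℂ) (A' := KK 3) ▸ RTr.mem B (Algebra.ofId ℂ _) B.algebraMap_mem hB a
  obtain ⟨Φ, H, hΦ, h0⟩ := RTr.main (R := ℂ[X][X])
    (by rw [RTr.trd_poly, Polynomial.trdeg_of_isDomain]) d (aevalTower (aeval τ) u) hπ
    (RTr.mem (VA d.O d.cst_mem) _ (hA _ hτ) hu) hy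
  obtain ⟨Ψ, h1, h2⟩ := RTr.swap (Algebra.adjoin ℂ {τ, y}) (aeval τ) u
    (hA _ (Algebra.subset_adjoin (by simp))) (Algebra.subset_adjoin (a := y) (by simp)) H
  refine ⟨Φ, Ψ, hΦ, h1, ?_⟩
  rw [eval_add, eval_mul, eval_C, h2, eval_map]
  exact h0

end Pool.Agent.MP_ee8c61_ag.M3K
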