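import Pool.Agent.MP_ee8c61_ag.M3K.Spec

/-! A centre on two divisors that is not a closed point is a double curve. -/

namespace Pool.Agent.MP_ee8c61_ag.M3K

open H59 M3 M3E Polynomial

namespace RUp

variable {K : Type} [Field K] [Algebra ℂ K]

theorem ev_mem (B : Subalgebra ℂ K) {p : K[X]} {u : K} (hp : ∀ j, p.coeff j ∈ B) (hu : u ∈ B) :
    p.eval u ∈ B := by
  rw [eval_eq_sum_range]
  exact sum_mem fun j _ => mul_mem (hp j) (pow_mem hu j)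

theorem ae_mem (B : Subalgebra ℂ K) {τ : K} (hτ : τ ∈ B) (p : ℂ[X]) : aeval τ p ∈ B := by
  rw [aeval_eq_sum_range]
  exact sum_mem fun j _ => B.smul_mem (pow_mem hτ j) _

theorem split (B : Subalgebra ℂ K) {τ s : K} (hτ : τ ∈ B) (hs : s ∈ B) {Φ : ℂ[X][X]} (h : Φ ≠ 0) :
    ∃ (n : ℕ) (c : ℂ[X]) (r : K), c ≠ 0 ∧ r ∈ B ∧
      (Φ.map (aeval τ).toRingHom).eval s = s ^ n * (aeval τ c + r * s) := by
  obtain ⟨q, h1, h2⟩ := exists_eq_pow_rootMultiplicity_mul_and_not_dvd Φ h 0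
  rw [map_zero, sub_zero] at h1 h2
  refine ⟨Φ.rootMultiplicity 0, q.coeff 0, (q.divX.map (aeval τ).toRingHom).eval s,
    fun e => h2 (X_dvd_iff.2 e), ev_mem B (fun j => ?_) hs, ?_⟩
  · rw [coeff_map]
    exact ae_mem B hτ _
  · conv_lhs => rw [h1, ← divX_mul_X_add q]
    simp [add_comm]

end RUp

theorem rowUp : OfUp := by
  intro E hTr hTc f M hM o j V a τ hj ha hV hT hL hτ
  have B := E.bas 3 f M hM
  have hO := B.ov a V ha
  obtain ⟨V', h1, h2⟩ := E.ce 3 f M hM o j V hO (B.thru_le V o hO hV) hT hj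
  obtain ⟨h3, h4⟩ := h2 a ha
  have l1 : ∀ g ∈ LA (M.S.A a) V, g ∈ V' := fun g hg => Lc.mem hg h3 h4
  have l2 : ∀ g ∈ LA (M.S.A a) V, g ∈ V := fun g hg => Lc.mem' hg ha
  have l3 : ∀ g ∈ LA (M.S.A a) V, Un V g → Un V' g := fun g hg u =>
    ⟨u.1, l1 g hg, l1 _ (Lc.inv hg u)⟩
  suffices e : V = V' from e ▸ h1
  refine (E.cv 3 f M hM).ext o j V' V a h1 h3 ha hV fun s hs => ⟨fun u => ?_, h4 s hs⟩
  by_contra hn
  obtain ⟨b, hb⟩ := hM.ne o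
  have hy : Un (M.v o).O (M.η a j) := by_contra fun k =>
    hj ((B.thru_v o j).1 ((B.thru_iff a _ j fun g hg => hV (ha g hg)).2 k))
  obtain ⟨Φ, Ψ, p1, p2, p3⟩ := hTr (M.v o) (M.η b o) τ (M.η a j) s (hM.dv b o hb).2.1
    (hV (l2 τ hL)) (hV (ha s hs)) hy
  obtain ⟨q1, q2⟩ := B.small V' o h1.2.2.1 _ p3
  have m1 : M.η a j ∈ LA (M.S.A a) V := le_LA (B.η_mem a j)
  have m2 : Ψ.eval s ∈ LA (M.S.A a) V := RUp.ev_mem _ (fun i => Algebra.adjoin_le (by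
    rintro _ (rfl | rfl)
    exacts [hL, m1]) (p2 i)) (le_LA hs)
  obtain ⟨n, c, r, c1, c2, c3⟩ := RUp.split (LA (M.S.A a) V) hL (le_LA hs) p1
  rw [eval_add, eval_mul, eval_C, c3, mul_comm (M.η a j)] at q2
  refine q2 (Un.add ((u.pow n).mul (l3 _ (add_mem (RUp.ae_mem _ hL c) (mul_mem c2 (le_LA hs)))
    (Un.add (hTc 3 V τ hO hτ c c1) (mul_mem (l2 r c2) (ha s hs))
      (not_un_mul (l2 r c2) (ha s hs) hn)))) (mul_mem (l1 _ m2) (l1 _ m1)) ?_)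
  exact not_un_mul (l1 _ m2) (l1 _ m1) (h1.2.2.2.1 a h3)

end Pool.Agent.MP_ee8c61_ag.M3K
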