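import Pool.Agent.MP_ee8c61_ag.M3K.Spec

/-!
The functions on the set where a section of a big divisor generates.
-/

namespace Pool.Agent.MP_ee8c61_ag.M3K

open H59 M3 M3E

theorem rowBir : OfBir := by
  rintro E N f W hW o L s ⟨μ, F, w, Ξ, ⟨T, T1, T2⟩, ⟨κ, _, b, t, ρ, hA⟩, hΞ, ho, hL⟩ - hs g hg
  have B := E.bas N f W hW
  obtain ⟨l, hl⟩ := hA.cov _ (B.ov_v o)
  obtain ⟨σ, σ1, σ2⟩ := T2 _ (B.ov_v o)
  have hb := ((hA.gen l _ (B.ov_v o)).1 hl).1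
  obtain ⟨s₀, a1, a2, a3⟩ := B.frac _ o hb g hg
  have ec : ∀ (e : ℕ) j, (e • μ • L) j = (e • F + (e • w + 0)) j + e * Ξ j := fun e j => by
    rw [hL, smul_add, smul_add, add_zero, Pi.add_apply, Pi.smul_apply e Ξ, nsmul_eq_mul e (Ξ j)]
  have key : ∀ x ∈ W.S.A (b l), ∃ e₀ : ℕ, ∀ e ≥ e₀,
      Bs W ⊤ L s (σ ^ e * (ρ l ^ e * x) / (s ^ μ) ^ e) := fun x hx => by
    refine (E.clr N f W hW κ w b t ρ hA l 0 x fun V hV q => ?_).imp fun e₀ h e he V hV _ q => ?_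
    · have m := ((hA.gen l V hV).1 q).1
      rw [B.oc_iff _ V _ _ m, B.mon_zero, mul_one]
      exact m x hx
    · refine (B.oc_div V _ _ _ hV (B.gen_pow V _ _ e (B.gen_pow V _ _ μ q))).1 (B.oc_mono V _ _ _
        (fun j _ => ?_) (B.oc_mul V _ _ _ _ (B.oc_pow V _ _ e (T1 σ σ1 V hV)) (h e he V hV)))
      rw [ec]
      exact le_add_of_nonneg_right (mul_nonneg (Nat.cast_nonneg e) (hΞ j))
  obtain ⟨e₁, h1⟩ := key _ a1
  obtain ⟨e₂, h2⟩ := key _ a3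
  refine ⟨_, h1 (max e₁ e₂) (le_max_left _ _), ?_, ?_⟩
  · generalize max e₁ e₂ = e
    have g1 := B.gen_congr _ (e • F + (e • w + 0)) (e • μ • L) _ (fun j hj => by
      rw [ec, (B.thru_v o j).1 hj, ho, mul_zero]
      exact (add_zero _).symm) (B.gen_mul _ _ _ _ _
        (B.gen_pow _ _ _ e σ2) (B.gen_mul _ _ 0 _ s₀ (B.gen_pow _ _ _ e hl)
          ((B.gen_iff _ _ _ _ hb).2 (by rwa [B.mon_zero, mul_one]))))
    have := (g1 _ hb).div (B.gen_pow _ _ _ e (B.gen_pow _ _ _ μ hs) _ hb)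
    rwa [mul_div_mul_right _ _ (W.mon_ne _ _)] at this
  · have := h2 (max e₁ e₂) (le_max_right _ _)
    rwa [← mul_assoc _ s₀, ← mul_assoc _ _ g, mul_div_right_comm _ g] at this

end Pool.Agent.MP_ee8c61_ag.M3K
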