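import Pool.Agent.MP_ee8c61_ag.M3K.Spec

/-!
A curve of log discrepancy zero that is not contracted is a double curve of the lower model.
-/

namespace Pool.Agent.MP_ee8c61_ag.M3K

open H59 M3 M3E Finset

theorem rowCore : OfCore := by
  intro hE hNg hTh _ hKb hUp f M C hM o i V c L ho mob hcv hdl hnn
  have bM := hE.bas 3 f M hM
  have bW := hE.bas 3 f C.W C.ok
  have cvM := hE.cv 3 f M hM
  have cvW := hE.cv 3 f C.W C.ok
  have dc := hE.dc 3 f C.W M C.D C.ok hM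
  have th := hTh 3 f C.W M C.D C.ok hM
  have kb := hKb 3 f M C hM
  have ov := hcv.2.1
  have tame : Tame C V := fun i' hi' => by
    rcases cvW.thru _ i V i' hcv hi' with rfl | rfl
    · exact (kb.tame _ ((kb.alive o).1 ho)).2
    · exact (kb.tame _ hdl).2
  obtain ⟨s, hs, s', hs', hg, htc⟩ := hnn
  have hH := mob.H 1
  rw [one_smul, one_smul] at hH
  obtain ⟨a, ha⟩ := hM.cov V ov
  obtain ⟨b, hb⟩ := C.ok.cov V ov
  have hlc := (hNg 3 f M hM).lc V c a s (hH ▸ hs) s' (hH ▸ hs') ha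
    ((kb.gen V ov tame c L s mob.eq).1.1 hg)
  obtain ⟨j, hjo, hj, hm, -⟩ := kb.pltP o i hcv.1 hdl
  have hth : M.Thru V j := (th V j ov).2 ⟨i, hcv.2.2.2.1, hm⟩
  have hle : V ≤ (M.v o).O := C.D.v o ▸ hcv.2.2.1
  have hI := hUp f M hM o j V a _ hjo ha hle hth hlc htc
  refine ⟨j, hj, hI, fun j' hj' => ?_⟩
  split_ifs with e
  · subst e
    have h0 : (C.D.m (C.D.e o) j' : ℤ) = 0 := by
      rw [← C.D.pb_e, dc.pb_e, M.e_apply, if_neg (Ne.symm hj')]
    have h1 : Un V (C.W.mon b ((fun i' => (C.D.m i' j' : ℤ)) - (C.D.m i j' : ℤ) • C.W.e i)) := by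
      refine bW.un_of b V _ hb fun i' hi' => ?_
      rcases cvW.thru _ i V i' hcv hi' with rfl | rfl
      · simp [h0, Mod.e_apply, hcv.1.symm]
      · simp [Mod.e_apply]
    have h2 := (C.D.mon a b V ha hb j').mul h1
    rw [sub_eq_add_neg, bW.mon_add, bW.mon_neg, bW.mon_e, ← mul_assoc,
      div_mul_cancel₀ _ (C.W.mon_ne _ _)] at h2
    have h3 : (M.v o).v (C.W.η b i) = 0 := by
      have := bW.v_mon b (C.D.e o) ((1 : ℤ) • C.W.e i) fun g hg => hcv.2.2.1 (hb g hg)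
      rw [bW.mon_e, zpow_one, C.D.v] at this
      simpa [Mod.e_apply, hcv.1.symm] using this
    obtain ⟨e, h4, -⟩ := cvM.un o j' V a hI ha _ (C.W.η_ne b i) h3
    have h5 := h2.mul (h4.zpow (C.D.m i j' : ℤ))
    rw [div_zpow, ← zpow_mul, div_eq_mul_inv, ← mul_assoc,
      inv_mul_cancel_right₀ (zpow_ne_zero _ (C.W.η_ne b i)), ← zpow_neg,
      ← zpow_one_add₀ (M.η_ne a j'),
      un_zpow_iff (M.η_ne a j') (ha _ (bM.η_mem a j')) (hth a ha)] at h5
    have h6 : (C.D.m i j' : ℤ) = 1 :=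
      Int.eq_one_of_mul_eq_one_left (a := e) (Nat.cast_nonneg _) (by omega)
    exact_mod_cast h6
  · by_contra h
    rcases cvM.thru o j V j' hI ((th V j' ov).2 ⟨i, hcv.2.2.2.1, Nat.pos_of_ne_zero h⟩) with h | h
    · exact hj' h
    · exact e h

end Pool.Agent.MP_ee8c61_ag.M3K
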