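import Pool.Agent.MP_ee8c61_ag.M3K.Spec
import Pool.Agent.MP_ee8c61_ag.M3E.RBd

/-!
Row Mo: a curve over a triple point on which a monomial is not constant has log discrepancy zero.
-/

set_option autoImplicit false

namespace Pool.Agent.MP_ee8c61_ag.M3K

open H59 M3 M3E Finset RBd

namespace RMo

section Log

variable {K : Type} [Field K] [Algebra ℂ K] (δ : Derivation ℂ K K) {g h : K}

theorem dl_mul (hg : g ≠ 0) (hh : h ≠ 0) : δ (g * h) / (g * h) = δ g / g + δ h / h := by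
  rw [δ.leibniz, smul_eq_mul, smul_eq_mul]
  field_simp
  ring

theorem dl_zpow (hg : g ≠ 0) (e : ℤ) : δ (g ^ e) / g ^ e = e * (δ g / g) := by
  have := zpow_ne_zero e hg
  rw [δ.leibniz_zpow, zpow_sub_one₀ hg, smul_eq_mul, zsmul_eq_mul]
  field_simp

theorem dl_prod {ι : Type} (s : Finset ι) (f : ι → K) (hf : ∀ j, f j ≠ 0) (x : ι → ℤ) :
    δ (∏ j ∈ s, f j ^ x j) / ∏ j ∈ s, f j ^ x j = ∑ j ∈ s, (x j : K) * (δ (f j) / f j) := by
  classical
  induction s using Finset.induction_on with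
  | empty => simp
  | insert j s hj ih =>
    rw [prod_insert hj, sum_insert hj, dl_mul δ (zpow_ne_zero _ (hf j))
      (prod_ne_zero_iff.2 fun l _ => zpow_ne_zero _ (hf l)), dl_zpow δ (hf j), ih]

omit [Algebra ℂ K] in
theorem not_un_div {V : ValuationSubring K} (hg : g ∈ V) (h1 : ¬Un V g) (h2 : Un V h) :
    g / h ∈ V ∧ ¬Un V (g / h) := by
  rw [div_eq_mul_inv, mul_comm]
  exact ⟨mul_mem h2.2.2 hg, not_un_mul h2.2.2 hg h1⟩

end Log

theorem sum_split {J R : Type} [Fintype J] [DecidableEq J] [AddCommMonoid R] {o j k : J}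
    (h1 : o ≠ j) (h2 : o ≠ k) (h3 : j ≠ k) (F : J → R) :
    ∑ l, F l = F o + F j + F k + ∑ l ∈ univ \ {o, j, k}, F l := by
  rw [← sum_sdiff (subset_univ {o, j, k}), sum_insert (by simp [h1, h2]), sum_pair h3, add_comm,
    ← add_assoc (F o)]

variable {W M : Mod 3} {D : Dom W M} {o : M.J} {i : W.J} {V : Vl 3} {b : W.ι} {i0 i1 i2 : Fin 3}
  (X : Ctx D o i V b i0 i1 i2)

include X

theorem derV {g : KK 3} (hg : Un V g) {l : Fin 3} (hl : l ≠ i0) : W.S.D b l g ∈ V := by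
  obtain ⟨h0, h1⟩ := (M.v o).un_O.1 (hg.mono X.le)
  obtain ⟨e, s, hs, s', hs', us, us', h3⟩ :=
    X.CW.dvr _ _ V b X.cv X.hb g h0 (by rw [D.v o]; exact h1)
  rw [D.v o] at h3
  obtain rfl : e = 0 :=
    ((od_of _ X.small X.uO us us' h3).un_iff (W.η_ne b i) X.uV X.uN).1 hg
  have h4 : s * g - s' * (1 : KK 3) ^ (0 : ℤ) ∈ (M.v o).F 1 := by
    rw [zpow_zero] at h3 ⊢
    exact h3
  have h5 := (der_bound _ X.small un_one (one_mem _) us us' h4 _ (X.dF hl)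
    (X.hb _ (W.S.D_mem b l s hs)) (X.hb _ (W.S.D_mem b l s' hs'))).2 (Derivation.map_one_eq_zero _)
  rwa [zpow_zero, div_one] at h5

/-- The logarithmic derivatives of a function of order `e`. -/
theorem logs {g : KK 3} {e : ℤ} (h : Od V (W.η b i) g e) :
    (∃ n ∈ V, ¬Un V n ∧ W.η b i * (W.S.D b i1 g / g) = e + n) ∧ W.S.D b i2 g / g ∈ V := by
  have u0 := W.η_ne b i
  have hu : W.η b i = W.S.z b i1 := W.S.η_some b i i1 X.l1
  have e1 : g = g / W.η b i ^ e * W.η b i ^ e := (div_mul_cancel₀ _ (zpow_ne_zero e u0)).symm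
  have k : ∀ l, W.S.D b l g / g = W.S.D b l (g / W.η b i ^ e) / (g / W.η b i ^ e) +
      e * (W.S.D b l (W.η b i) / W.η b i) := fun l => by
    rw [← dl_zpow _ u0, ← dl_mul _ h.1 (zpow_ne_zero e u0), ← e1]
  have m : ∀ l, l ≠ i0 → W.S.D b l (g / W.η b i ^ e) / (g / W.η b i ^ e) ∈ V := fun l hl => by
    rw [div_eq_mul_inv (W.S.D b l _)]
    exact mul_mem (derV X h hl) h.2.2
  refine ⟨⟨_, mul_mem (m i1 X.n01.symm) X.uV, not_un_mul (m i1 X.n01.symm) X.uV X.uN, ?_⟩, ?_⟩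
  · have d1 : W.S.D b i1 (W.η b i) = 1 := by rw [hu, W.S.D_z, if_pos rfl]
    rw [k, d1]
    field_simp
    ring
  · have d2 : W.S.D b i2 (W.η b i) = 0 := by rw [hu, W.S.D_z, if_neg X.n12.symm]
    rw [k, d2, zero_div, mul_zero, add_zero]
    exact m i2 X.n02.symm

theorem lc_up {a : M.ι} (ha : M.In a V) {g : KK 3} (hg : Lc (M.S.A a) V g) :
    Lc (W.S.A b) V g := by
  obtain ⟨s, h1, h2, h3⟩ := hg
  have := ((X.DC.lc a b V ha X.hb s h1).inv h2).mul (X.DC.lc a b V ha X.hb _ h3)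
  rwa [inv_mul_cancel_left₀ h2.1] at this

/-- The exponents of a monomial that is a unit. -/
theorem exps {a : M.ι} (ha : M.In a V) {x : M.J → ℤ} (hx : Un V (M.mon a x)) :
    x o = 0 ∧ D.pb x i = 0 := by
  have h1 : Un V (W.mon b (D.pb x)) := by
    have := hx.div (X.DC.un_mon a b V x ha X.hb)
    rwa [div_div_cancel₀ (M.mon_ne a x)] at this
  have h2 : D.pb x (D.e o) = 0 := by
    rw [← X.BW.v_mon b _ (D.pb x) X.inO]
    exact ((W.v (D.e o)).un_O.1 (h1.mono X.cv.2.2.1)).2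
  exact ⟨(X.DC.pb_e ℤ x o).symm.trans h2,
    ((X.od_mon _ h2).un_iff (W.η_ne b i) X.uV X.uN).1 h1⟩

theorem lc_inv (NW : Nb W) {a : M.ι} (ha : M.In a V) {x : M.J → ℤ} (hx : Un V (M.mon a x)) :
    Lc (W.S.A b) V (M.mon a x)⁻¹ := by
  obtain ⟨h1, h2⟩ := exps X ha hx
  refine NW.lc b V _ X.hb fun V' hb' hu => ?_
  have ha' : M.In a V' := fun g hg => (X.DC.lc a b V ha X.hb g hg).mem hb' hu
  have h3 : Un V' (W.mon b (D.pb x)) := X.BW.un_of b V' _ hb' fun l hl => by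
    have h4 : W.Thru V l := (X.BW.thru_iff b V l X.hb).2 fun h =>
      hl b hb' (hu _ (X.BW.η_mem b l) h)
    rcases X.CW.thru _ _ _ l X.cv h4 with rfl | rfl
    · exact (X.DC.pb_e ℤ x o).trans h1
    · exact h2
  have h5 := (X.DC.un_mon a b V' x ha' hb').mul h3
  rw [div_mul_cancel₀ _ (W.mon_ne b _)] at h5
  exact h5.2.2

end RMo

open RMo in
theorem rowMo : OfMo := by
  intro E _ hDt f W M D hW hM o j k i V a x φ oj ok jk cv ha tj tk hκ hL hU hT
  have BW := E.bas 3 f W hW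
  have BM := E.bas 3 f M hM
  obtain ⟨b, hb⟩ := hW.cov V cv.2.1
  obtain ⟨i0, k0⟩ := (BW.in_v b V _ hb (BW.thru_le V _ cv.2.1 cv.2.2.1)).2.2.1
  obtain ⟨i1, k1⟩ := (BW.in_v b V _ hb cv.2.2.2.1).2.2.1
  have n01 : i0 ≠ i1 := fun e => cv.1 (W.S.lab_inj b _ _ i1 k1 (e ▸ k0))
  obtain ⟨i2, n02, n12⟩ := third i0 i1 n01
  have X : Ctx D o i V b i0 i1 i2 :=
    ⟨BW.toBas1, BM.toBas1, E.der 3 f W hW, E.der 3 f M hM, E.cv 3 f W hW, E.dc 3 f W M D hW hM, cv,
      hb, k0, k1, n01, n02, n12, fun a l0 l1 l2 ha h0 m1 m2 m3 =>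
        E.adj f W M D hW hM o a b V l0 l1 l2 i0 i1 i2 ha hb (D.v o ▸ cv.2.2.1) h0 k0 m1 m2 m3
          n01 n02 n12⟩
  have u0 := W.η_ne b i
  have hC : ∀ c : ℂ, algebraMap ℂ (KK 3) c ∈ V := fun c => hb _ ((W.S.A b).algebraMap_mem c)
  obtain ⟨l0, h0⟩ := X.labo ha X.thru_o
  obtain ⟨l1, h1⟩ := X.labo ha tj
  obtain ⟨l2, h2⟩ := X.labo ha tk
  have q1 : l0 ≠ l1 := fun e => oj (M.S.lab_inj a _ _ l1 (e ▸ h0) h1)
  have q2 : l0 ≠ l2 := fun e => ok (M.S.lab_inj a _ _ l2 (e ▸ h0) h2)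
  have q3 : l1 ≠ l2 := fun e => jk (M.S.lab_inj a _ _ l2 (e ▸ h1) h2)
  have nt : ∀ l ∈ (univ \ {o, j, k} : Finset M.J), l ≠ o ∧ ¬M.Thru V l := by
    intro l hl
    simp only [mem_sdiff, mem_univ, mem_insert, mem_singleton, true_and, not_or] at hl
    refine ⟨hl.1, fun ht => ?_⟩
    obtain ⟨l', hl'⟩ := X.labo ha ht
    rcases all3 l0 l1 l2 q1 q2 q3 l' with rfl | rfl | rfl
    · exact hl.1 (M.S.lab_inj a _ _ _ hl' h0)
    · exact hl.2.1 (M.S.lab_inj a _ _ _ hl' h1)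
    · exact hl.2.2 (M.S.lab_inj a _ _ _ hl' h2)
  have m0 : ∀ l ∈ (univ \ {o, j, k} : Finset M.J), D.m i l = 0 := fun l hl =>
    by_contra fun e => (nt l hl).2 ((X.thru_iff (nt l hl).1 ha).2 e)
  have uφ : Un V φ := by simpa using hT 0
  have ux : Un V (M.mon a x) := (mul_comm φ _ ▸ hU).cancel uφ
  obtain ⟨xo, xi⟩ := exps X ha ux
  have lφ : Lc (W.S.A b) V φ := by
    have := (lc_up X ha hL).mul (lc_inv X (E.nb 3 f W hW) ha ux)
    rwa [mul_inv_cancel_right₀ (M.mon_ne a x)] at this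
  obtain ⟨d1, d2⟩ := hDt f W hW (D.e o) i V b φ i2 cv hb
    (by rw [k0]; exact fun e => n02 (Option.some.inj e))
    (by rw [k1]; exact fun e => n12 (Option.some.inj e)) lφ
  have sm : ∀ g, Lc (M.S.A a) V g → Un V g →
      W.S.D b i2 g / g ∈ V ∧ ¬Un V (W.S.D b i2 g / g) := by
    intro g hg ug
    obtain ⟨κ, hk⟩ := hκ g hg
    have l3 : Lc (W.S.A b) V (g - algebraMap ℂ (KK 3) κ) :=
      sub_mem (mem_LA.2 (lc_up X ha hg)) ((LA (W.S.A b) V).algebraMap_mem κ)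
    have l4 := d1 _ l3 hk
    rw [map_sub, Derivation.map_algebraMap, sub_zero] at l4
    exact not_un_div (derV X ug n02.symm) l4 ug
  have oJ := X.od_η ha oj.symm
  have oK := X.od_η ha ok.symm
  obtain ⟨⟨n1, n1V, n1N, e1⟩, a1⟩ := logs X oJ
  obtain ⟨⟨n2, n2V, n2N, e2⟩, a2⟩ := logs X oK
  have rel : (D.m i j : ℤ) * x j + D.m i k * x k = 0 := by
    rw [Dom.pb, sum_split oj ok jk, xo, sum_eq_zero fun l hl => by rw [m0 l hl]; simp] at xi
    simpa using xi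
  have sr : ∀ l ∈ (univ \ {o, j, k} : Finset M.J),
      (x l : KK 3) * (W.S.D b i2 (M.η a l) / M.η a l) ∈ V ∧
        ¬Un V ((x l : KK 3) * (W.S.D b i2 (M.η a l) / M.η a l)) := by
    intro l hl
    obtain ⟨s1, s2⟩ := sm _ (Lc.of_mem (BM.η_mem a l))
      (by_contra fun h => (nt l hl).2 ((BM.thru_iff a V l ha).2 h))
    exact ⟨mul_mem (intCast_mem V _) s1, not_un_mul (intCast_mem V _) s1 s2⟩
  have u1 : Un V ((x j : KK 3) * (W.S.D b i2 (M.η a j) / M.η a j) +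
      x k * (W.S.D b i2 (M.η a k) / M.η a k)) := by
    obtain ⟨s1, s2⟩ := sm _ hL hU
    have s3 := sum_mem fun l hl => (sr l hl).1
    have s4 := not_un_sum _ (fun l hl => (sr l hl).1) fun l hl => (sr l hl).2
    have s5 := (((d2.1 hT).div uφ).neg.add s1 s2).neg.add s3 s4
    have e3 := dl_prod (W.S.D b i2) univ (M.η a) (M.η_ne a) x
    rw [← M.mon_eq, sum_split oj ok jk, xo, Int.cast_zero, zero_mul, zero_add] at e3
    rw [dl_mul _ uφ.1 ux.1, e3] at s5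
    refine (congrArg (Un V) ?_).mp s5.neg
    ring
  have mj : Un V (D.m i j : KK 3) := by
    have := un_const hC (c := (D.m i j : ℂ)) (Nat.cast_ne_zero.2 ((X.thru_iff oj.symm ha).1 tj))
    rwa [map_natCast] at this
  have u2 : Un V ((D.m i j : KK 3) * (W.S.D b i2 (M.η a k) / M.η a k) -
      D.m i k * (W.S.D b i2 (M.η a j) / M.η a j)) := by
    have r : (D.m i j : KK 3) * x j + D.m i k * x k = 0 := by exact_mod_cast rel
    refine Un.of_mul (h := (x k : KK 3)) ((congrArg (Un V) ?_).mp (mj.mul u1))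
      (sub_mem (mul_mem (natCast_mem V _) a2) (mul_mem (natCast_mem V _) a1)) (intCast_mem V _)
    linear_combination (W.S.D b i2 (M.η a j) / M.η a j) * r
  have u3 := u2.add (add_mem (mul_mem a2 n1V) (mul_mem (neg_mem a1) n2V))
    (not_un_add (mul_mem a2 n1V) (mul_mem (neg_mem a1) n2V) (not_un_mul a2 n1V n1N)
      (not_un_mul (neg_mem a1) n2V n2N))
  have oD := X.od_J ha h0 q1 q2 q3
  rw [← show M.η a j = M.S.z a l1 from M.S.η_some a j l1 h1,
    ← show M.η a k = M.S.z a l2 from M.S.η_some a k l2 h2] at oD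
  have oD' : Od V (W.η b i) (W.S.D b i1 (M.η a j) * W.S.D b i2 (M.η a k) -
      W.S.D b i2 (M.η a j) * W.S.D b i1 (M.η a k)) ((D.m i j : ℤ) + D.m i k - 1) := by
    have u4 := (u3.mul oJ).mul oK
    refine (congrArg (Un V) ?_).mp u4
    have f1 : n1 = W.η b i * (W.S.D b i1 (M.η a j) / M.η a j) - D.m i j := by
      rw [e1]; push_cast; ring
    have f2 : n2 = W.η b i * (W.S.D b i1 (M.η a k) / M.η a k) - D.m i k := by
      rw [e2]; push_cast; ring
    have z1 := M.η_ne a j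
    have z2 := M.η_ne a k
    rw [f1, f2, zpow_sub_one₀ u0, zpow_add₀ u0]
    field_simp
    ring
  have fin := oD.uniq u0 X.uV X.uN oD'
  have e4 : ∑ l, (D.m i l : ℤ) * (M.kk + M.e o) l =
      ∑ l, (D.m i l : ℤ) * M.k l + D.m i o := by
    rw [← D.pb_e o i, Dom.pb, ← sum_add_distrib]
    exact sum_congr rfl fun l _ => mul_add _ _ _
  have e5 : ∑ l, (D.m i l : ℤ) = D.m i o + D.m i j + D.m i k := by
    rw [sum_split oj ok jk, sum_eq_zero fun l hl => by rw [m0 l hl]; simp, add_zero]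
  rw [rc, Pi.sub_apply, Pi.add_apply, Mod.e_apply, if_neg cv.1, Dom.pb, e4] at fin
  have e6 : ∑ l, (D.m i l : ℤ) * (M.k l + 1) = W.k i + 1 := by
    simp only [mul_add, mul_one, sum_add_distrib, e5]
    have : W.kk i = W.k i := rfl
    omega
  have e7 := congrArg (Int.cast : ℤ → ℚ) e6
  push_cast at e7
  exact e7

end Pool.Agent.MP_ee8c61_ag.M3K
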