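import Pool.Agent.MP_ee8c61_ag.M3K.Spec

/-!
Generation at a curve that is not contracted.
-/

namespace Pool.Agent.MP_ee8c61_ag.M3K

open M3 M3E

theorem rowNn : OfNn := fun E hG hR f W hW o k V L hV hB ⟨s, hs, s', hs', hg, hτ⟩ c => by
  have B := E.bas 3 f W hW
  obtain ⟨b, hb⟩ := hW.cov V hV.2.1
  have hb' : W.In b (W.v o).O := fun g h => hV.2.2.1 (hb g h)
  have ck : Ck (W.v o).O V (W.η b k) :=
    { le := hV.2.2.1
      mem := hb _ (B.η_mem b k)
      non := (B.thru_iff b V k hb).1 hV.2.2.2.1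
      un := not_not.1 fun h => hV.1 ((B.thru_v o k).1 ((B.thru_iff b _ k hb').2 h))
      ord := fun g h =>
        ((E.cv 3 f W hW).un o k V b hV hb g h.1 ((W.v o).un_O.1 h).2).imp fun _ h => h.1 }
  exact hG 3 f W hW _ V _ L s hV.2.1 ck (B.H_R o L hs) hg
    (hR f W hW o V _ L s _ hV.2.1 ck hB hs hg
      (fun V' h1 _ h2 => (B.oc_div V' L s' s h1 h2).1 (hs' V' h1)) hτ) c

end Pool.Agent.MP_ee8c61_ag.M3K
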