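import Pool.Agent.MP_ee8c61_ag.M3K.Spec

/-! At a triple point all residues are constants. -/

namespace Pool.Agent.MP_ee8c61_ag.M3K

open H59 M3 M3E

namespace RR0

theorem res {A : Type} [CommRing A] [Algebra ℂ A] {n : ℕ} (z : Fin n → A)
    (het : (MvPolynomial.aeval (R := ℂ) z).toRingHom.Etale) (P : Ideal A) [P.IsPrime]
    (hz : ∀ l, z l ∈ P) (g : A) : ∃ κ : ℂ, g - algebraMap ℂ A κ ∈ P := by
  let _ : Algebra (MvPolynomial (Fin n) ℂ) A := (MvPolynomial.aeval (R := ℂ) z).toRingHom.toAlgebra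
  have : Algebra.Etale (MvPolynomial (Fin n) ℂ) A := het
  let _ : Algebra (MvPolynomial (Fin n) ℂ) ℂ :=
    (MvPolynomial.aeval (R := ℂ) fun _ : Fin n => (0 : ℂ)).toRingHom.toAlgebra
  have : IsScalarTower (MvPolynomial (Fin n) ℂ) ℂ (A ⧸ P) := by
    refine IsScalarTower.of_algebraMap_eq fun p => ?_
    have e : (Ideal.Quotient.mkₐ ℂ P).comp (MvPolynomial.aeval z) =
        (Algebra.ofId ℂ (A ⧸ P)).comp (MvPolynomial.aeval fun _ : Fin n => (0 : ℂ)) := by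
      refine MvPolynomial.algHom_ext fun l => ?_
      simpa [Ideal.Quotient.eq_zero_iff_mem] using hz l
    exact DFunLike.congr_fun e p
  have : Algebra.FormallyUnramified ℂ (A ⧸ P) :=
    Algebra.FormallyUnramified.of_restrictScalars (MvPolynomial (Fin n) ℂ) ℂ (A ⧸ P)
  have : Algebra.FiniteType ℂ (A ⧸ P) :=
    Algebra.FiniteType.of_restrictScalars_finiteType (MvPolynomial (Fin n) ℂ) ℂ (A ⧸ P)
  have : Module.Finite ℂ (A ⧸ P) := Algebra.FormallyUnramified.finite_of_free ℂ (A ⧸ P)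
  obtain ⟨κ, hκ⟩ := (IsAlgClosed.algebraMap_bijective_of_isIntegral (k := ℂ) (K := A ⧸ P)).2
    (Ideal.Quotient.mk P g)
  exact ⟨κ, Ideal.Quotient.eq.1 hκ.symm⟩

theorem three {a b c : Fin 3} (h1 : a ≠ b) (h2 : a ≠ c) (h3 : b ≠ c) (l : Fin 3) :
    l = a ∨ l = b ∨ l = c := by
  revert a b c l
  decide

theorem val {K : Type} [Field K] [Algebra ℂ K] {n : ℕ} (A : Subalgebra ℂ K) (z : Fin n → A)
    (V : ValuationSubring K) (het : (MvPolynomial.aeval (R := ℂ) z).toRingHom.Etale)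
    (hV : ∀ g ∈ A, g ∈ V) (hz : ∀ l, ¬Un V (z l : K)) (g : K) (hg : Lc A V g) :
    ∃ κ : ℂ, ¬Un V (g - algebraMap ℂ K κ) := by
  let P : Ideal A :=
    { carrier := {x | ¬Un V x}
      add_mem' := fun {x y} hx hy => not_un_add (hV _ x.2) (hV _ y.2) hx hy
      zero_mem' := not_un_zero
      smul_mem' := fun c x hx => not_un_mul (hV _ c.2) (hV _ x.2) hx }
  have hP : P.IsPrime := ⟨(Ideal.ne_top_iff_one P).2 fun h => h un_one, fun {x y} h => by
    by_contra hn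
    rw [not_or] at hn
    exact h (Un.mul (not_not.1 hn.1) (not_not.1 hn.2))⟩
  obtain ⟨s, hs, hu, hsg⟩ := hg
  obtain ⟨a, ha⟩ := res z het P hz ⟨s * g, hsg⟩
  obtain ⟨b, hb⟩ := res z het P hz ⟨s, hs⟩
  have b0 : b ≠ 0 := by
    rintro rfl
    rw [map_zero, sub_zero] at hb
    exact hb hu
  refine ⟨a / b, fun h => ?_⟩
  have h1 : ¬Un V ((⟨s * g, hsg⟩ - algebraMap ℂ A a -
      algebraMap ℂ A (a / b) * (⟨s, hs⟩ - algebraMap ℂ A b) : A) : K) :=
    P.sub_mem ha (P.mul_mem_left _ hb)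
  refine h1 ?_
  have e : ((⟨s * g, hsg⟩ - algebraMap ℂ A a -
      algebraMap ℂ A (a / b) * (⟨s, hs⟩ - algebraMap ℂ A b) : A) : K) =
      s * (g - algebraMap ℂ K (a / b)) := by
    have e1 : algebraMap ℂ K (a / b) * algebraMap ℂ K b = algebraMap ℂ K a := by
      rw [← map_mul, div_mul_cancel₀ _ b0]
    show s * g - algebraMap ℂ K a - algebraMap ℂ K (a / b) * (s - algebraMap ℂ K b) = _
    linear_combination e1
  rw [e]
  exact hu.mul h

end RR0

theorem rowR0 : OfR0 := by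
  intro E f M hM V a i j k h1 h2 h3 hV ti tj tk g hg
  have B := E.bas 3 f M hM
  obtain ⟨li, ei⟩ := (B.in_v a V i hV ti).2.2.1
  obtain ⟨lj, ej⟩ := (B.in_v a V j hV tj).2.2.1
  obtain ⟨lk, ek⟩ := (B.in_v a V k hV tk).2.2.1
  refine RR0.val (M.S.A a) (fun l => ⟨M.S.z a l, M.S.z_mem a l⟩) V (hM.et a) hV (fun l => ?_) g hg
  show ¬Un V (M.S.z a l)
  rcases RR0.three (a := li) (b := lj) (c := lk)
    (fun e => h1 (M.S.lab_inj a i j li ei (e ▸ ej)))
    (fun e => h2 (M.S.lab_inj a i k li ei (e ▸ ek)))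
    (fun e => h3 (M.S.lab_inj a j k lj ej (e ▸ ek))) l with rfl | rfl | rfl
  · rw [← M.S.η_some a i _ ei]
    exact ti a hV
  · rw [← M.S.η_some a j _ ej]
    exact tj a hV
  · rw [← M.S.η_some a k _ ek]
    exact tk a hV

end Pool.Agent.MP_ee8c61_ag.M3K
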