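import Pool.Agent.MP_ee8c61_ag.M3K.Spec

/-!
A unit of a refinement of a divisor becomes regular on a higher model.
-/

namespace Pool.Agent.MP_ee8c61_ag.M3K

open H59 M3 M3E Finset

namespace RReal

theorem frac {N : ℕ} (x : KK N) : ∃ p q : Po N, ip N q ≠ 0 ∧ ip N q * x = ip N p := by
  obtain ⟨p, q, hq, rfl⟩ := IsFractionRing.div_surjective (A := Po N) x
  have h : ip N q ≠ 0 := IsFractionRing.to_map_ne_zero_of_mem_nonZeroDivisors hq
  exact ⟨p, q, h, mul_div_cancel₀ _ h⟩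

end RReal

theorem rowReal : OfReal := by
  classical
  intro E N f W hf o V τ hV hle hτ
  have B := E.bas N f W hf
  obtain ⟨p, q, hq, e⟩ := RReal.frac τ
  have hp : ip N p ≠ 0 := e ▸ mul_ne_zero hq hτ.1
  have hf0 : ip N f ≠ 0 := ((B.gen_v o _ _).1 (B.gen_f _)).1
  obtain ⟨r, hr⟩ := B.f_pow fun j => -(W.v j).v (ip N p)
  have h1 := ((hr r le_rfl).2 o).resolve_left (pow_ne_zero r hf0)
  have h0 : ∀ x : Po N, ip N x ∈ W.H 0 := fun x V' hV' b _ => by
    rw [B.mon_zero, mul_one]; exact hV' x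
  obtain ⟨W', hW', ⟨D⟩, hT⟩ := E.b1 N f W hf Unit (fun _ => {ip N p, ip N q, ip N f ^ r})
    (fun _ => ⟨0, fun g hg => by
      simp only [mem_insert, mem_singleton] at hg
      rcases hg with rfl | rfl | rfl
      exacts [h0 p, h0 q, map_pow (ip N) f r ▸ h0 _]⟩) fun _ => ⟨r, by simp⟩
  obtain ⟨c, hc, hg⟩ := hT ()
  refine ⟨W', D, hW', fun b hb => ?_⟩
  have a1 := ((E.nb N f W' hW').H c _).1 (hc (ip N p) (by simp)) b
  have a2 := ((E.nb N f W' hW').H c _).1 (hc (ip N q) (by simp)) b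
  have e' : ip N q * W'.mon b c * τ = ip N p * W'.mon b c := by rw [← e]; ring
  obtain ⟨g, g1, g2⟩ := hg V hV
  have g3 := g2 b hb
  simp only [mem_insert, mem_singleton] at g1
  rcases g1 with rfl | rfl | rfl
  · exact ⟨_, a2, (e' ▸ g3 : Un V (ip N q * W'.mon b c * τ)).cancel hτ, e' ▸ a1⟩
  · exact ⟨_, a2, g3, e' ▸ a1⟩
  · exfalso
    have a3 := hle (mul_mem (hb _ a1) g3.2.2)
    rw [← div_eq_mul_inv, mul_div_mul_right _ _ (W'.mon_ne b c)] at a3
    have a4 := Or.resolve_left a3 (div_ne_zero hp (pow_ne_zero r hf0))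
    rw [DV.div _ hp (pow_ne_zero r hf0)] at a4
    omega

end Pool.Agent.MP_ee8c61_ag.M3K
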