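import Pool.Agent.MP_ee8c61_ag.M3K.Spec

/-! The same chamber on a higher model. -/

namespace Pool.Agent.MP_ee8c61_ag.M3K

open H59 M3 M3E Finset

namespace RRf

variable {N : ℕ} {f : Po N} {M W' : Mod N} {C : Ch f M} {D' : Dom W' C.W}

theorem free (d : Dc D') {c : C.W.J → ℤ} (h : C.W.Free c) : W'.Free (D'.pb c) :=
  h.imp fun T hT => d.gens c T hT

theorem rfOK (hW : W'.OK f) (B : Bas f W') (d : Dc D') : RfOK C D' where
  ok := hW
  mon a b V ha hb j := by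
    obtain ⟨b0, h0⟩ := C.ok.cov V (B.ov b V hb)
    have h1 := (C.D.mon a b0 V ha h0 j).mul (d.un_mon b0 b V (fun l => C.D.m l j) h0 hb)
    rw [div_mul_div_cancel₀ (C.W.mon_ne _ _)] at h1
    have e : (fun i => ((∑ l, D'.m i l * C.D.m l j : ℕ) : ℤ)) = D'.pb fun l => (C.D.m l j : ℤ) :=
      funext fun i => by simp [Dom.pb]
    rwa [e]
  loc b V hb := by
    obtain ⟨b0, h0⟩ := D'.loc b V hb
    obtain ⟨a, ha⟩ := C.D.loc b0 V fun g hg => (h0 g hg).mem' hb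
    refine ⟨a, fun g hg => ?_⟩
    obtain ⟨s, s1, s2, s3⟩ := ha g hg
    have := ((h0 s s1).inv s2).mul (h0 _ s3)
    rwa [inv_mul_cancel_left₀ s2.1] at this
  free x hx := by
    obtain ⟨m, c, c', h1, h2, h3, h4, h5⟩ := C.free x hx
    exact ⟨m, c, D'.pb c', h1, h2, by rw [D'.q_pb, h3, D'.pb_nsmul], free d h4,
      fun n => by rw [h5, ← D'.pb_nsmul, d.H]⟩

theorem pb_eq (h : RfOK C D') (x : M.J → ℚ) : (refine C D' h).D.pb x = D'.pb (C.D.pb x) :=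
  funext fun i => by
    show ∑ j, ((∑ l, D'.m i l * C.D.m l j : ℕ) : ℚ) * x j =
      ∑ l, (D'.m i l : ℚ) * ∑ j, (C.D.m l j : ℚ) * x j
    simp only [Nat.cast_sum, Nat.cast_mul, sum_mul, mul_sum, mul_assoc]
    exact sum_comm

theorem mob (h : RfOK C D') (d : Dc D') (c : M.J → ℤ) (c' : C.W.J → ℤ) (H : Mob C c c') :
    Mob (refine C D' h) c (D'.pb c') where
  eq := (D'.q_pb c').trans (congrArg D'.pb H.eq)
  free := free d H.free
  H n := (H.H n).trans ((d.H _).symm.trans (congrArg W'.H (D'.pb_nsmul n c')))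

end RRf

open RRf

theorem rowRf : OfRf := by
  intro E hT hK N f M C hM W' D' hW
  have d := E.dc N f W' C.W D' hW C.ok
  have T := hT N f W' C.W D' hW C.ok
  have A := hK N f M C hM
  have h := rfOK hW (E.bas N f W' hW) d
  refine ⟨h, pb_eq h, fun j => forall_congr' fun x => ?_, mob h d,
    fun c L H => ⟨mob h d c L H.toMob, H.inn⟩, fun V hV => ⟨fun H l hl => ?_, fun H i hi x => ?_⟩,
    fun V x hV hx => ⟨fun ⟨i, hi, h1⟩ => ?_, fun ⟨l, hl, h1⟩ => ?_⟩,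
    fun L V Γ hV hΓ => forall_congr' fun n => ?_, fun L V hV => ?_⟩
  · exact (congrArg (· = x j) (d.pb_e ℚ (C.P x) (C.D.e j))).to_iff
  · obtain ⟨i, hi, h1⟩ := (T V l hV).1 hl
    obtain ⟨s, -, hs⟩ := C.inn
    obtain ⟨δ, -, h2⟩ := hs 0
    rw [smul_zero, add_zero] at h2
    have h3 : ∑ l, (D'.m i l : ℚ) * C.P (M.nu + s • C.h) l =
        ∑ l, (D'.m i l : ℚ) * C.D.pb (M.nu + s • C.h) l :=
      (H i hi _).trans (congrFun (pb_eq h _) i)
    exact A.one _ l hs (mul_left_cancel₀ (Nat.cast_ne_zero.2 h1.ne')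
      ((sum_eq_sum_iff_of_le fun l _ =>
        mul_le_mul_of_nonneg_left (A.le _ h2 l) (Nat.cast_nonneg _)).1 h3 l (mem_univ l)))
  · refine Eq.trans ?_ (congrFun (pb_eq h x) i).symm
    refine sum_congr rfl fun l _ => ?_
    rcases (D'.m i l).eq_zero_or_pos with h0 | h0
    · rw [h0, Nat.cast_zero, zero_mul, zero_mul]
    · rw [H l ((T V l hV).2 ⟨i, hi, h0⟩) x]
  · obtain ⟨l, -, h2⟩ := exists_lt_of_sum_lt (f := fun _ => (0 : ℚ)) (sum_const_zero.trans_lt h1)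
    have h3 := pos_and_pos_or_neg_and_neg_of_mul_pos h2
    have h4 := h3.resolve_right fun e => not_lt.2 (hx l) e.2
    exact ⟨l, (T V l hV).2 ⟨i, hi, Nat.cast_pos.1 h4.1⟩, h4.2⟩
  · obtain ⟨i, hi, h2⟩ := (T V l hV).1 hl
    exact ⟨i, hi, sum_pos' (fun l _ => mul_nonneg (Nat.cast_nonneg _) (hx l))
      ⟨l, mem_univ l, mul_pos (Nat.cast_pos.2 h2) h1⟩⟩
  · rw [← D'.pb_nsmul, d.H]
    simp only [d.gen V _ _ hV, d.gen Γ _ _ hΓ]
  · simp only [Nn, d.H, d.gen V _ _ hV]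

end Pool.Agent.MP_ee8c61_ag.M3K
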