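import Pool.Agent.MP_ee8c61_ag.M3K.Spec

/-!
Exceptional divisors occur in the relative ample class.
-/

namespace Pool.Agent.MP_ee8c61_ag.M3K

open H59 M3 M3E Finset

namespace RXi

theorem int (E : EOut) {N : ℕ} {f : Po N} {W M : Mod N} (D : Dom W M) (hW : W.OK f) (hM : M.OK f)
    {w : W.J → ℤ} (hw : W.Amp w) {i : W.J} (hi : i ∉ Set.range D.e) :
    w i < D.pb (D.pf w) i := by
  obtain ⟨κ, _, b, t, ρ, hA⟩ := hw
  have bW : Bas f W := E.bas N f W hW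
  have bM : Bas f M := E.bas N f M hM
  have nM : Nb M := E.nb N f M hM
  have dc : Dc D := E.dc N f W M D hW hM
  have hO := bW.ov_v i
  obtain ⟨l, hl⟩ := hA.cov _ hO
  obtain ⟨r0, r1⟩ := (bW.gen_v _ _ _).1 hl
  have h1 : ρ l ∈ W.H (D.pb (D.pf w)) := by rw [dc.H]; exact dc.push w (hA.sec l)
  have h2 := ((bW.oc_v _ _ _).1 (h1 _ hO)).resolve_left r0
  by_contra hn
  have he : D.pb (D.pf w) i = w i := by omega
  have hb : W.In (b l) (W.v i).O := ((hA.gen l _ hO).1 hl).1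
  obtain ⟨a, ha⟩ := hM.cov _ hO
  have clr : ∀ x ∈ W.S.A (b l), ∃ e0 : ℕ, ∀ e ≥ e0,
      ρ l ^ e * x * M.mon a (e • D.pf w) ∈ M.S.A a := fun x hx => by
    obtain ⟨e0, h0⟩ := E.clr N f W hW κ w b t ρ hA l 0 x fun V hV hG c _ => by
      rw [bW.mon_zero, mul_one]; exact ((hA.gen l V hV).1 hG).1 x hx
    refine ⟨e0, fun e h => ?_⟩
    have a1 := h0 e h
    rw [add_zero] at a1
    exact (nM.H _ _).1 (dc.push _ a1) a
  have lc : ∀ g ∈ (W.v i).O, Lc (M.S.A a) (W.v i).O g := fun g hg => by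
    obtain ⟨s, s1, s2, s3⟩ := bW.frac _ i hb g hg
    obtain ⟨e1, c1⟩ := clr s s1
    obtain ⟨e2, c2⟩ := clr _ s3
    refine ⟨_, c1 (e1 + e2) (by omega), ?_, ?_⟩
    · obtain ⟨s4, s5⟩ := (W.v i).un_O.1 s2
      refine (dc.gen _ _ _ hO).2 ((bW.gen_v _ _ _).2 ⟨mul_ne_zero (pow_ne_zero _ r0) s4, ?_⟩) a ha
      rw [(W.v i).mul _ _ (pow_ne_zero _ r0) s4, (W.v i).pow, r1, s5, D.pb_nsmul, Pi.smul_apply, he,
        nsmul_eq_mul]
      ring
    · have := c2 (e1 + e2) (by omega)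
      rwa [← mul_assoc, mul_right_comm] at this
  obtain ⟨j, hj⟩ : ∃ j, M.Thru (W.v i).O j := by
    by_contra hj
    have u1 := bM.un_of a _ (-M.aa) ha fun j h => absurd ⟨j, h⟩ hj
    have u2 := ((W.v i).un_O.1 ((bM.gen_f _ a ha).cancel u1)).2
    have u3 := ((bW.gen_v _ _ _).1 (bW.gen_f (W.v i).O)).2
    have u4 := hW.pos i
    rw [u2, Pi.neg_apply, neg_neg, Mod.aa] at u3
    omega
  obtain ⟨j1, -, -, j2⟩ := bM.in_v a _ j ha hj
  have le : (W.v i).O ≤ (W.v (D.e j)).O := fun g hg => by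
    rw [D.v]
    exact (lc g hg).mem j1 fun s hs hu => (M.v j).un_O.2 ⟨hu.1, j2 s hs hu⟩
  exact hi ⟨j, (bW.thru_v i _).1 (bW.thru_le _ _ hO le)⟩

end RXi

theorem rowXi : OfXi := by
  intro E N f W M D hW hM A hA i hi
  obtain ⟨μ, w, h0, hw, e⟩ := hA
  have h1 : ((w i : ℤ) : ℚ) < (D.pb (D.pf w) i : ℤ) := by exact_mod_cast RXi.int E D hW hM hw hi
  have h2 : M.q (D.pf w) = μ • D.pf A := funext fun j => congrFun e (D.e j)
  have h3 := congrFun (D.q_pb (D.pf w)) i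
  have h4 := congrFun e i
  rw [h2, D.pb_nsmul] at h3
  rw [Mod.q_apply, Pi.smul_apply, nsmul_eq_mul] at h3 h4
  rw [h3, h4] at h1
  exact lt_of_mul_lt_mul_left h1 (Nat.cast_nonneg μ)

end Pool.Agent.MP_ee8c61_ag.M3K
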