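import Pool.Agent.MP_ee8c61_ag.M3K.RTc

/-! Functions that are regular at all refinements of a valuation ring have constant residue. -/

namespace Pool.Agent.MP_ee8c61_ag.M3K

open H59 M3 M3E Finset

noncomputable section

variable {N : ℕ} {f : Po N} {V V' : Vl N} {g : KK N}

theorem cst_mem (hV : Ov V) (c : ℂ) : algebraMap ℂ (KK N) c ∈ V := by
  simpa using hV (MvPolynomial.C c)

/-- The residue of `g` at `V` is a constant. -/
def Kc (V : Vl N) (g : KK N) : Prop := g ∈ V ∧ ¬Tc V g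

theorem kc_iff : Kc V g ↔ g ∈ V ∧ ∃ a : ℂ, ¬Un V (g - algebraMap ℂ (KK N) a) :=
  and_congr_right fun _ => not_forall

/-- The elements with constant residue. -/
def kcR (V : Vl N) (hV : Ov V) : Subring (KK N) where
  carrier := {g | Kc V g}
  zero_mem' := kc_iff.2 ⟨zero_mem _, 0, by simpa using not_un_zero⟩
  one_mem' := kc_iff.2 ⟨one_mem _, 1, by simpa using not_un_zero⟩
  neg_mem' := fun {g} h => by
    obtain ⟨h1, a, h2⟩ := kc_iff.1 h
    refine kc_iff.2 ⟨neg_mem h1, -a, fun h3 => h2 ?_⟩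
    have := h3.neg
    rwa [map_neg, neg_sub_neg, neg_sub] at this
  add_mem' := fun {g g'} h h' => by
    obtain ⟨h1, a, h2⟩ := kc_iff.1 h
    obtain ⟨h1', a', h2'⟩ := kc_iff.1 h'
    refine kc_iff.2 ⟨add_mem h1 h1', a + a', ?_⟩
    rw [map_add, ← sub_add_sub_comm]
    exact not_un_add (sub_mem h1 (cst_mem hV a)) (sub_mem h1' (cst_mem hV a')) h2 h2'
  mul_mem' := fun {g g'} h h' => by
    obtain ⟨h1, a, h2⟩ := kc_iff.1 h
    obtain ⟨h1', a', h2'⟩ := kc_iff.1 h'
    refine kc_iff.2 ⟨mul_mem h1 h1', a * a', ?_⟩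
    rw [map_mul, show g * g' - algebraMap ℂ (KK N) a * algebraMap ℂ (KK N) a' =
      g' * (g - algebraMap ℂ _ a) + algebraMap ℂ _ a * (g' - algebraMap ℂ _ a') by ring]
    exact not_un_add (mul_mem h1' (sub_mem h1 (cst_mem hV a)))
      (mul_mem (cst_mem hV a) (sub_mem h1' (cst_mem hV a')))
      (not_un_mul h1' (sub_mem h1 (cst_mem hV a)) h2)
      (not_un_mul (cst_mem hV a) (sub_mem h1' (cst_mem hV a')) h2')

theorem kc_non (hg : g ∈ V) (h : ¬Un V g) : Kc V g := kc_iff.2 ⟨hg, 0, by simpa using h⟩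

theorem kc_cst (hV : Ov V) (c : ℂ) : Kc V (algebraMap ℂ (KK N) c) :=
  kc_iff.2 ⟨cst_mem hV c, c, by simpa using not_un_zero⟩

theorem non_mem (h : V' ≤ V) (hg : g ∈ V) (h1 : ¬Un V g) : g ∈ V' := by
  by_cases h0 : g = 0
  · rw [h0]; exact zero_mem _
  exact (V'.mem_or_inv_mem g).resolve_right fun h2 => h1 ⟨h0, hg, h h2⟩

theorem Kc.le (h : Kc V g) (h1 : V' ≤ V) (h2 : ∀ c : ℂ, algebraMap ℂ (KK N) c ∈ V') : g ∈ V' := by
  obtain ⟨h3, a, h4⟩ := kc_iff.1 h
  have := add_mem (non_mem h1 (sub_mem h3 (h1 (h2 a))) h4) (h2 a)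
  rwa [sub_add_cancel] at this

theorem kc_int (hV : Ov V) (h : IsIntegral (kcR V hV) g) : Kc V g := by
  obtain ⟨p, hp, e⟩ := h
  have hg : g ∈ V := by
    suffices h : IsIntegral V g by
      obtain ⟨y, rfl⟩ := (IsIntegrallyClosedIn.isIntegral_iff (R := V) (A := KK N)).1 h
      exact y.2
    let φ : kcR V hV →+* V := Subring.inclusion (S := kcR V hV) (T := V.toSubring) fun _ h => h.1
    exact ⟨p.map φ, hp.map φ, by rw [Polynomial.eval₂_map]; exact e⟩
  refine ⟨hg, fun ht => ?_⟩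
  choose a ha using fun i => (kc_iff.1 (p.coeff i).2).2
  set n := p.natDegree
  have h1 := rowTc N V g hV ht (Polynomial.X ^ n + ∑ i ∈ range n, Polynomial.C (a i) *
    Polynomial.X ^ i) (Polynomial.Monic.ne_zero (Polynomial.monic_X_pow_add (by
      refine (Polynomial.degree_sum_le _ _).trans_lt ((Finset.sup_lt_iff (by simp)).2 fun i hi => ?_)
      exact (Polynomial.degree_C_mul_X_pow_le _ _).trans_lt
        (by exact_mod_cast mem_range.1 hi))))
  rw [hp.as_sum, Polynomial.eval₂_add, Polynomial.eval₂_X_pow, Polynomial.eval₂_finsetSum] at e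
  simp only [Polynomial.eval₂_mul, Polynomial.eval₂_C, Polynomial.eval₂_X_pow] at e
  simp only [map_add, map_pow, Polynomial.aeval_X, map_sum, map_mul, Polynomial.aeval_C] at h1
  rw [eq_neg_of_add_eq_zero_left e, neg_add_eq_sub, ← sum_sub_distrib] at h1
  refine not_un_sum _ (fun i _ => sub_mem (mul_mem (cst_mem hV _) (pow_mem hg _))
    (mul_mem (p.coeff i).2.1 (pow_mem hg _))) (fun i _ => ?_) h1
  rw [← sub_mul, mul_comm]
  refine not_un_mul (pow_mem hg _) (sub_mem (cst_mem hV _) (p.coeff i).2.1) fun h2 => ha i ?_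
  have := h2.neg
  rwa [neg_sub] at this

/-- An element of all refinements has constant residue. -/
theorem allc (hV : Ov V)
    (h : ∀ V' : Vl N, V' ≤ V → (∀ c : ℂ, algebraMap ℂ (KK N) c ∈ V') → g ∈ V') : Kc V g := by
  by_contra hn
  have : IsIntegrallyClosedIn (kcR V hV) (KK N) :=
    isIntegrallyClosedIn_iff.2 ⟨Subtype.val_injective, fun {x} hx => ⟨⟨x, kc_int hV hx⟩, rfl⟩⟩
  obtain ⟨V', h1, h2⟩ := Subring.exists_le_valuationSubring_of_isIntegrallyClosedIn
    (R := kcR V hV) (x := g) hn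
  refine h2 ?_
  by_cases h3 : V' ≤ V
  · exact h V' h3 fun c => h1 (kc_cst hV c)
  obtain ⟨x, hx, hx'⟩ := SetLike.not_le_iff_exists.1 h3
  have hg := h V le_rfl (cst_mem hV)
  have h4 : x⁻¹ ∈ V := (V.mem_or_inv_mem x).resolve_left hx'
  have h5 : g * x⁻¹ ∈ V' := h1 (kc_non (mul_mem hg h4)
    (not_un_mul hg h4 fun h6 => hx' (by simpa using h6.2.2)))
  have := mul_mem h5 hx
  rwa [inv_mul_cancel_right₀ (show x ≠ 0 from fun e => hx' (e ▸ zero_mem _))] at this

theorem ov_of (h1 : ∀ c : ℂ, algebraMap ℂ (KK N) c ∈ V) (h2 : ∀ l, xx N l ∈ V) : Ov V := fun p => by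
  induction p using MvPolynomial.induction_on with
  | C c => simpa using h1 c
  | add p q hp hq => rw [map_add]; exact add_mem hp hq
  | mul_X p l hp => rw [map_mul]; exact mul_mem hp (h2 l)

variable {W : Mod N} {c : W.J → ℤ} {T : Finset (KK N)} {s : KK N}

/-- If the ratios are constant at `V`, a generator at `V` generates at all refinements. -/
theorem gen_le (hE : EOut) (hW : W.OK f) (hT : W.Gens c T) (hs : s ∈ W.H c) (hV : Ov V)
    (hG : W.Gen V c s) (hr : ∀ s' ∈ T, ¬Tc V (s' / s)) (h1 : V' ≤ V) (hV' : Ov V') :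
    W.Gen V' c s := by
  have B := hE.bas N f W hW
  obtain ⟨s', hs', h2⟩ := hT.2 V' hV'
  obtain ⟨b, hb⟩ := hW.cov V' hV'
  have h3 : s' / s ∈ V' := Kc.le ⟨(B.oc_div V c s' s hV hG).1 (hT.1 s' hs' V hV), hr s' hs'⟩ h1
    (cst_mem hV')
  have s0 : s ≠ 0 := left_ne_zero_of_mul (hG b fun x hx => h1 (hb x hx)).1
  have h4 := h2 b hb
  rw [show s' * W.mon b c = s * W.mon b c * (s' / s) by field_simp] at h4
  exact (B.gen_iff b V' c s hb).2 (h4.of_mul (hs V' hV' b hb) h3)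

/-- On a contracted centre all ratios of sections are constant. -/
theorem kc_sec (hE : EOut) (hW : W.OK f) (hV : Ov V) (hx : ∀ l, ¬Tc V (xx N l))
    (hG : ∀ V', V' ≤ V → Ov V' → W.Gen V' c s) (hg : g ∈ W.H c) : Kc V (g / s) :=
  allc hV fun V' h1 h2 => by
    have h3 : Ov V' := ov_of h2 fun l => Kc.le ⟨hV _, hx l⟩ h1 h2
    exact ((hE.bas N f W hW).oc_div V' c g s h3 (hG V' h1 h3)).1 (hg V' h3)

/-- A section that generates at a contracted centre generates at all refinements. -/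
theorem gen_le' (hE : EOut) (hW : W.OK f) (hV : Ov V) (hx : ∀ l, ¬Tc V (xx N l))
    (hG : ∀ V', V' ≤ V → Ov V' → W.Gen V' c s) (hg : g ∈ W.H c) (h : W.Gen V c g)
    (h1 : V' ≤ V) (hV' : Ov V') : W.Gen V' c g := by
  have B := hE.bas N f W hW
  obtain ⟨b, hb⟩ := hW.cov V' hV'
  have hb' : W.In b V := fun x hx => h1 (hb x hx)
  have h2 := hG V le_rfl hV b hb'
  have s0 : s ≠ 0 := left_ne_zero_of_mul h2.1
  have h3 : Un V (g / s) := by
    have := (h b hb').div h2
    rwa [mul_div_mul_right _ _ (W.mon_ne b c)] at this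
  have h4 := kc_sec hE hW hV hx hG hg
  obtain ⟨-, a, ha⟩ := kc_iff.1 h4
  have a0 : a ≠ 0 := fun e => ha (by simpa [e] using h3)
  have h5 : Un V' (g / s) := by
    have h6 : Un V' (algebraMap ℂ (KK N) a) :=
      ⟨(map_ne_zero _).2 a0, cst_mem hV' a, by rw [← map_inv₀]; exact cst_mem hV' _⟩
    have h7 := h6.add (non_mem h1 (sub_mem h4.1 (cst_mem hV a)) ha) fun h => ha (h.mono h1)
    rwa [add_sub_cancel] at h7
  have := h5.mul (hG V' h1 hV' b hb)
  rw [show g / s * (s * W.mon b c) = g * W.mon b c by field_simp] at this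
  exact (B.gen_iff b V' c g hb).2 this

/-- A contracted centre is contracted by all multiples. -/
theorem not_nn (hE : EOut) (hW : W.OK f) (hV : Ov V) (hx : ∀ l, ¬Tc V (xx N l))
    (hG : ∀ V', V' ≤ V → Ov V' → W.Gen V' c s) : ¬Nn W V c := by
  rintro ⟨t, ht, t', ht', h1, h2⟩
  exact (kc_sec hE hW hV hx (fun V' h3 h4 => gen_le' hE hW hV hx hG ht h1 h3 h4) ht').2 h2

end

end Pool.Agent.MP_ee8c61_ag.M3K
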