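import Pool.Agent.MP_ee8c61_ag.M3K.Spec

/-! Row Av: one section that generates at a valuation and at no member of a finite family. -/

namespace Pool.Agent.MP_ee8c61_ag.M3K

open H59 M3 M3E

theorem rowAv : OfAv := by
  intro E hNg N f W hW L Γ F hL hΓ hF
  have B := E.bas N f W hW
  have G := hNg N f W hW
  induction F, hF using Set.Finite.induction_on with
  | empty =>
    intro _ n₀
    obtain ⟨s, hs, h⟩ := G.ex L Γ hL hΓ
    exact ⟨n₀, le_rfl, s ^ n₀, G.pow L n₀ s hs, B.gen_pow Γ L s n₀ h, fun _ h => h.elim⟩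
  | @insert V F _ _ ih =>
    intro h n₀
    obtain ⟨n, hn, σ, h1, h2, h3⟩ := ih (fun V' hV' => h V' (Or.inr hV')) n₀
    obtain ⟨hV, hT⟩ := h V (Or.inl rfl)
    simp only [Thr, not_forall] at hT
    obtain ⟨m, τ, k1, k2, k3⟩ := hT
    refine ⟨n + m, le_add_right hn, σ * τ, ?_, ?_, ?_⟩ <;> rw [add_nsmul]
    · exact G.mul _ _ σ h1 τ k1
    · exact B.gen_mul Γ _ _ σ τ h2 k2
    · rintro V' (rfl | hV') c
      · rw [add_comm, mul_comm] at c
        exact k3 (B.gen_of_mul V' _ _ τ σ (k1 V' hV) (h1 V' hV) c)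
      · have hO := (h V' (Or.inr hV')).1
        exact h3 V' hV' (B.gen_of_mul V' _ _ σ τ (h1 V' hO) (k1 V' hO) c)

end Pool.Agent.MP_ee8c61_ag.M3K
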